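import Pool.Agent.Helper94.Mono.Carrier

/-! Packets T1 and T2 of the monodromy project. -/

namespace Mono

open Finset

variable {n : ℕ}

open Classical in
/-- The inner sum of `Zreal`. -/
noncomputable def inn (A : Finset (Fin n → ℤ)) (T : Fan n) (s : ℝ) (φ : Finset (Fin n → ℤ)) : ℝ :=
  ∑ δ ∈ T.faces.filter (fun δ => δ.card + dimF φ = n ∧ ∀ a ∈ δ, ∀ v ∈ φ, a ⬝ᵥ v = NA A a),
      (idx (δ : Set (Fin n → ℤ)) : ℝ) / ∏ a ∈ δ, ((NA A a : ℝ) * s + ∑ i, (a i : ℝ))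

theorem Zreal_eq (A : Finset (Fin n → ℤ)) (T : Fan n) (s : ℝ) :
    Zreal A T s = ∑ φ ∈ cfaces A, cDL (dimF φ) s * (nvol φ : ℝ) * inn A T s φ := rfl

theorem inDual_iff {A Z : Finset (Fin n → ℤ)} {Φ T : Fan n} (hT : Tri A Z Φ)
    {τ : Finset (Fin n → ℤ)} (hτ : CSimp A Φ τ) {δ : Finset (Fin n → ℤ)} (hδ : T.IsFace δ) :
    InDual A Z τ δ ↔ ∀ a ∈ δ, ∀ v ∈ car A τ, a ⬝ᵥ v = NA A a := by
  have hAZ : Disjoint A Z := hT.2.2.2.1
  have hdis : ∀ v ∈ τ, v ∉ Z := fun v hv => Finset.disjoint_left.1 hAZ (hτ.2.2 hv)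
  constructor
  · intro h a ha
    refine car_dual hT hτ (T.vert_nonneg a (Fan.IsFace.subset_vert T hδ ha)) ?_
    intro v hv
    exact (h a ha).1 v (Finset.mem_sdiff.2 ⟨hv, hdis v hv⟩)
  · intro h a ha
    refine ⟨fun v hv => h a ha v ((car_spec hT hτ).2.1 (Finset.mem_sdiff.1 hv).1), ?_⟩
    intro v hv
    obtain ⟨h1, h2⟩ := Finset.mem_inter.1 hv
    exact absurd h2 (hdis v h1)

theorem card_le_car {A Z : Finset (Fin n → ℤ)} {Φ : Fan n} (hT : Tri A Z Φ)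
    {τ : Finset (Fin n → ℤ)} (hτ : CSimp A Φ τ) : τ.card ≤ dimF (car A τ) + 1 :=
  card_le_dimF (Fan.IsFace.indep Φ hτ.1) hτ.2.1 (car_spec hT hτ).2.1

open Classical in
theorem jsum_eq {A Z : Finset (Fin n → ℤ)} {Φ T : Fan n} (hT : Tri A Z Φ)
    {τ : Finset (Fin n → ℤ)} (hτ : CSimp A Φ τ) (s : ℝ) :
    Jsum A Z T τ s (fun _ => 1) =
      if τ.card = dimF (car A τ) + 1 then inn A T s (car A τ) else 0 := by
  have hle := card_le_car hT hτ
  have hpos : 0 < τ.card := Finset.card_pos.2 hτ.2.1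
  split_ifs with hc
  · unfold Jsum inn
    have hfil : T.faces.filter (fun δ => δ.card + τ.card = n + 1 ∧ InDual A Z τ δ) =
        T.faces.filter (fun δ => δ.card + dimF (car A τ) = n ∧
          ∀ a ∈ δ, ∀ v ∈ car A τ, a ⬝ᵥ v = NA A a) := by
      refine Finset.filter_congr fun δ hδ => ?_
      rw [inDual_iff hT hτ ((Fan.mem_faces T).1 hδ)]
      refine and_congr_left fun _ => ?_
      omega
    rw [hfil]
    refine Finset.sum_congr rfl fun δ _ => ?_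
    congr 1
    refine Finset.prod_congr rfl fun a _ => ?_
    congr 1
    simp [dotProduct]
  · unfold Jsum
    have hfil : T.faces.filter (fun δ => δ.card + τ.card = n + 1 ∧ InDual A Z τ δ) = ∅ := by
      rw [Finset.filter_eq_empty_iff]
      rintro δ hδ ⟨h1, h2⟩
      have hδ' := (Fan.mem_faces T).1 hδ
      rw [inDual_iff hT hτ hδ'] at h2
      have := card_add_dimF_le (Fan.IsFace.indep T hδ') (fun a ha => ⟨NA A a, h2 a ha⟩)
      omega
    rw [hfil, Finset.sum_empty]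

/-- The main regrouping. -/
theorem regroup {M : Type*} [AddCommMonoid M] {A Z : Finset (Fin n → ℤ)} {Φ : Fan n}
    (hT : Tri A Z Φ)
    (S : Finset (Finset (Fin n → ℤ))) (hS : ∀ τ, τ ∈ S ↔ CSimp A Φ τ ∧ τ.card =
      dimF (car A τ) + 1) (f : Finset (Fin n → ℤ) → Finset (Fin n → ℤ) → M) :
    ∑ τ ∈ S, f (car A τ) τ = ∑ φ ∈ cfaces A,
      ∑ τ ∈ Φ.faces.filter (fun τ => τ ⊆ φ ∧ τ.card = dimF φ + 1), f φ τ := by
  classical
  rw [← Finset.sum_fiberwise_of_maps_to (s := S) (t := cfaces A) (g := car A)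
    (fun τ hτ => (car_spec hT ((hS τ).1 hτ).1).1)]
  refine Finset.sum_congr rfl fun φ hφ => ?_
  have hset : S.filter (fun τ => car A τ = φ) =
      Φ.faces.filter (fun τ => τ ⊆ φ ∧ τ.card = dimF φ + 1) := by
    ext τ
    rw [Finset.mem_filter, Finset.mem_filter, hS]
    constructor
    · rintro ⟨⟨h1, h2⟩, h3⟩
      refine ⟨(Fan.mem_faces Φ).2 h1.1, ?_, ?_⟩
      · rw [← h3]; exact (car_spec hT h1).2.1
      · rw [← h3]; exact h2
    · rintro ⟨h1, h2, h3⟩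
      have hc : CSimp A Φ τ := ⟨(Fan.mem_faces Φ).1 h1, Finset.card_pos.1 (by omega),
        h2.trans (cfaces_subset hφ)⟩
      have h4 := car_of_dim hT hc hφ h2 h3
      exact ⟨⟨hc, by rw [h4]; exact h3⟩, h4⟩
  rw [hset.symm]
  refine Finset.sum_congr rfl fun τ hτ => ?_
  rw [(Finset.mem_filter.1 hτ).2]

/-- Packet T1. -/
theorem faceSumZ (h : NvolSum) : FaceSumZ := by
  classical
  intro n A Z Φ T hT _ s
  rw [Zreal_eq]
  have h1 : ∀ τ ∈ Φ.faces.filter (fun τ => τ.Nonempty ∧ τ ⊆ A),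
      cDL (τ.card - 1) s * (vol τ : ℝ) * Jsum A Z T τ s (fun _ => 1) =
      if τ.card = dimF (car A τ) + 1 then
        cDL (dimF (car A τ)) s * (vol τ : ℝ) * inn A T s (car A τ) else 0 := by
    intro τ hτ
    have hc : CSimp A Φ τ := csimp_iff.1 (Finset.mem_filter.1 hτ)
    rw [jsum_eq hT hc]
    split_ifs with h2
    · rw [h2, Nat.add_sub_cancel]
    · rw [mul_zero]
  rw [Finset.sum_congr rfl h1, ← Finset.sum_filter]
  rw [regroup hT _ (fun τ => ?_) (fun φ τ => cDL (dimF φ) s * (vol τ : ℝ) * inn A T s φ)]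
  · refine Finset.sum_congr rfl fun φ hφ => ?_
    rw [h n A Z Φ hT φ hφ, ← Finset.sum_mul, ← Finset.mul_sum]
    push_cast
    rfl
  · rw [Finset.mem_filter, Finset.mem_filter, csimp_iff]

theorem latDist_eq {τ φ : Finset (Fin n → ℤ)} (hne : τ.Nonempty) (h : τ ⊆ φ)
    (hd : dimF φ ≤ dimF τ) : latDist τ = latDist φ := by
  unfold latDist
  congr 1
  ext N
  constructor
  · rintro ⟨h1, k, hk⟩
    exact ⟨h1, k, const_of_dim hne h hd hk⟩
  · rintro ⟨h1, k, hk⟩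
    exact ⟨h1, k, fun u hu => hk u (h hu)⟩

theorem cs_mono_h94 {τ φ : Finset (Fin n → ℤ)} (h : τ ⊆ φ) : cs τ ⊆ cs φ := by
  intro i hi
  unfold cs at *
  rw [Finset.mem_filter] at *
  obtain ⟨h1, u, hu, hui⟩ := hi
  exact ⟨h1, u, h hu, hui⟩

theorem mem_cs_h94 {τ : Finset (Fin n → ℤ)} {i : Fin n} : i ∈ cs τ ↔ ∃ u ∈ τ, u i ≠ 0 := by
  unfold cs; simp

/-- G1. -/
theorem cs_car {A Z : Finset (Fin n → ℤ)} {Φ : Fan n} (hT : Tri A Z Φ)
    {τ : Finset (Fin n → ℤ)} (hτ : CSimp A Φ τ) : cs (car A τ) = cs τ := by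
  classical
  obtain ⟨h1, h2, h3⟩ := car_spec hT hτ
  refine Finset.Subset.antisymm ?_ (cs_mono_h94 h2)
  obtain ⟨b, hb, hbe⟩ := mem_cfaces.1 h1
  obtain ⟨u, hu⟩ := hτ.2.1
  set e : Fin n → ℤ := fun i => if i ∈ cs τ then 0 else 1 with he
  have hAp : ∀ v ∈ A, ∀ i, 0 ≤ v i := hT.2.1
  have hev : ∀ v ∈ A, 0 ≤ e ⬝ᵥ v := by
    intro v hv
    refine Finset.sum_nonneg fun i _ => mul_nonneg ?_ (hAp v hv i)
    rw [he]; dsimp only; split_ifs <;> norm_num
  have heτ : ∀ v ∈ τ, e ⬝ᵥ v = 0 := by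
    intro v hv
    refine Finset.sum_eq_zero fun i _ => ?_
    rw [he]; dsimp only
    split_ifs with hi
    · rw [zero_mul]
    · have : v i = 0 := by
        by_contra hvi
        exact hi (mem_cs_h94.2 ⟨v, hv, hvi⟩)
      rw [this, mul_zero]
  have hNe : NA A e = 0 := NA_eq hev ⟨u, hτ.2.2 hu, heτ u hu⟩
  have hd := car_dual hT hτ (a := e) (fun i => by rw [he]; dsimp only; split_ifs <;> norm_num)
    (fun v hv => by rw [heτ v hv, hNe])
  intro i hi
  obtain ⟨v, hv, hvi⟩ := mem_cs_h94.1 hi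
  by_contra hic
  have h4 := hd v hv
  rw [hNe] at h4
  have h5 := (Finset.sum_eq_zero_iff_of_nonneg (fun j _ => mul_nonneg (by
    rw [he]; dsimp only; split_ifs <;> norm_num) (hAp v (cfaces_subset h1 hv) j))).1 h4 i
    (Finset.mem_univ i)
  rw [he] at h5
  dsimp only at h5
  rw [if_neg hic, one_mul] at h5
  exact hvi h5

/-- G2. -/
theorem dimF_lt_cs {A Z : Finset (Fin n → ℤ)} {Φ : Fan n} (hT : Tri A Z Φ)
    {φ : Finset (Fin n → ℤ)} (hφ : φ ∈ cfaces A) (hne : φ.Nonempty) : dimF φ < (cs φ).card := by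
  classical
  obtain ⟨b, hb, hbe⟩ := mem_cfaces.1 hφ
  have hAp : ∀ v ∈ A, ∀ i, 0 ≤ v i := hT.2.1
  have h0 : (0 : Fin n → ℤ) ∉ A := hT.2.2.1
  obtain ⟨v₀, hv₀⟩ := hne
  have hv₀A := cfaces_subset hφ hv₀
  have hNb : 0 < NA A b := by
    have h1 : b ⬝ᵥ v₀ = NA A b := by
      rw [hbe, mem_face] at hv₀; exact hv₀.2
    rw [← h1]
    have hvne : v₀ ≠ 0 := fun h => h0 (h ▸ hv₀A)
    obtain ⟨i, hi⟩ := Function.ne_iff.1 hvne
    have hi' : 0 < v₀ i := lt_of_le_of_ne (hAp v₀ hv₀A i) (Ne.symm hi)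
    refine Finset.sum_pos' (fun j _ => mul_nonneg (hb j).le (hAp v₀ hv₀A j)) ⟨i,
      Finset.mem_univ i, mul_pos (hb i) hi'⟩
  have hconst : ∀ v ∈ φ, b ⬝ᵥ v = NA A b := by
    intro v hv
    rw [hbe, mem_face] at hv; exact hv.2
  let W : Submodule ℝ (Fin n → ℝ) :=
    { carrier := {x | ∀ i, i ∉ cs φ → x i = 0}
      zero_mem' := fun i _ => rfl
      add_mem' := fun hx hy i hi => by simp [hx i hi, hy i hi]
      smul_mem' := fun a x hx i hi => by simp [hx i hi] }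
  have hWmem : ∀ v ∈ φ, toR v ∈ W := by
    intro v hv i hi
    have : v i = 0 := by
      by_contra hvi
      exact hi (mem_cs_h94.2 ⟨v, hv, hvi⟩)
    simp [this]
  have hlt : vectorSpan ℝ (toR '' (φ : Set (Fin n → ℤ))) < W := by
    refine lt_of_le_of_ne ?_ ?_
    · unfold vectorSpan
      rw [Submodule.span_le]
      rintro _ ⟨_, ⟨u, hu, rfl⟩, _, ⟨v, hv, rfl⟩, rfl⟩
      exact W.sub_mem (hWmem u hu) (hWmem v hv)
    · intro heq
      have h1 := dot_vectorSpan hconst (toR v₀) (by rw [heq]; exact hWmem v₀ hv₀)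
      rw [toR_dot, hconst v₀ hv₀] at h1
      have : NA A b = 0 := by exact_mod_cast h1
      omega
  have h1 := Submodule.finrank_lt_finrank_of_lt hlt
  have h2 : Module.finrank ℝ W ≤ (cs φ).card := by
    let r : W →ₗ[ℝ] (cs φ → ℝ) :=
      { toFun := fun x i => x.1 i.1
        map_add' := fun x y => rfl
        map_smul' := fun a x => rfl }
    have hr : Function.Injective r := by
      intro x y hxy
      apply Subtype.ext
      funext i
      by_cases hi : i ∈ cs φ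
      · exact congrFun hxy ⟨i, hi⟩
      · rw [x.2 i hi, y.2 i hi]
    have := LinearMap.finrank_le_finrank_of_injective hr
    simpa using this
  unfold dimF
  omega

/-- Packet T2. -/
theorem faceSumMult (h : NvolSum) : FaceSumMult := by
  classical
  intro n A Z Φ hT m
  -- the condition on simplices
  have key : ∀ τ, CSimp A Φ τ → ((τ.card = (cs τ).card ∧ m ∣ latDist τ) ↔
      (τ.card = dimF (car A τ) + 1 ∧
        (dimF (car A τ) + 1 = (cs (car A τ)).card ∧ m ∣ latDist (car A τ)))) := by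
    intro τ hτ
    have h1 := cs_car hT hτ
    obtain ⟨h2, h3, h4⟩ := car_spec hT hτ
    have h5 := dimF_lt_cs hT h2 (hτ.2.1.mono h3)
    have h6 := card_le_car hT hτ
    have h7 : τ.card ≤ dimF τ + 1 :=
      card_le_dimF (Fan.IsFace.indep Φ hτ.1) hτ.2.1 (Finset.Subset.refl τ)
    rw [h1] at h5 ⊢
    constructor
    · rintro ⟨h8, h9⟩
      refine ⟨by omega, by omega, ?_⟩
      rw [← latDist_eq hτ.2.1 h3 (by omega)]
      exact h9
    · rintro ⟨h8, h9, h10⟩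
      refine ⟨by omega, ?_⟩
      rw [latDist_eq hτ.2.1 h3 (by omega)]
      exact h10
  have hR : ∑ τ ∈ Φ.faces.filter (fun τ => τ.Nonempty ∧ τ ⊆ A ∧ τ.card = (cs τ).card ∧
      m ∣ latDist τ), (-1 : ℤ) ^ (τ.card - 1) * (vol τ : ℤ) =
      ∑ τ ∈ Φ.faces.filter (fun τ => (τ.Nonempty ∧ τ ⊆ A) ∧ τ.card = dimF (car A τ) + 1),
        (if dimF (car A τ) + 1 = (cs (car A τ)).card ∧ m ∣ latDist (car A τ) then
          (-1 : ℤ) ^ (dimF (car A τ)) * (vol τ : ℤ) else 0) := by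
    rw [← Finset.sum_filter]
    refine Finset.sum_congr ?_ ?_
    · rw [Finset.filter_filter]
      refine Finset.filter_congr fun τ hτ => ?_
      constructor
      · rintro ⟨h1, h2, h3⟩
        have hc : CSimp A Φ τ := csimp_iff.1 ⟨hτ, h1, h2⟩
        have h4 := (key τ hc).1 h3
        exact ⟨⟨⟨h1, h2⟩, h4.1⟩, h4.2⟩
      · rintro ⟨⟨⟨h1, h2⟩, h3⟩, h4⟩
        have hc : CSimp A Φ τ := csimp_iff.1 ⟨hτ, h1, h2⟩
        exact ⟨h1, h2, (key τ hc).2 ⟨h3, h4⟩⟩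
    · intro τ hτ
      have h3 := (Finset.mem_filter.1 (Finset.mem_filter.1 hτ).1).2.2
      rw [h3, Nat.add_sub_cancel]
  rw [hR]
  rw [regroup hT _ (fun τ => ?_) (fun φ τ =>
    (if dimF φ + 1 = (cs φ).card ∧ m ∣ latDist φ then (-1 : ℤ) ^ (dimF φ) * (vol τ : ℤ) else 0))]
  · rw [Finset.sum_filter]
    refine Finset.sum_congr rfl fun φ hφ => ?_
    split_ifs with h1
    · rw [h n A Z Φ hT φ hφ, Finset.mul_sum]
    · rw [Finset.sum_const_zero]
  · rw [Finset.mem_filter, ← csimp_iff]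
    tauto

end Mono
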