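import Pool.Agent.Helper20.Mono.GoalsS
import Pool.Agent.Helper94.Mono.FaceSum

/-! Packet S5 of the monodromy project: the multiplicity of a slice as a sum over simplices. -/

namespace Mono

open Finset

variable {n : ℕ}

namespace C94

/-- Coordinate projection. -/
def prK (K : Finset (Fin n)) (v : Fin n → ℤ) : Fin n → ℤ := fun i => if i ∈ K then 0 else v i

theorem projS_eq (K : Finset (Fin n)) (A : Finset (Fin n → ℤ)) :
    projS K A = A.image (prK K) := rfl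

theorem mem_projS {K : Finset (Fin n)} {A : Finset (Fin n → ℤ)} {w : Fin n → ℤ} :
    w ∈ projS K A ↔ ∃ v ∈ A, prK K v = w := by
  rw [projS_eq, Finset.mem_image]

theorem projS_mono {K : Finset (Fin n)} {A B : Finset (Fin n → ℤ)} (h : A ⊆ B) :
    projS K A ⊆ projS K B := by
  rw [projS_eq, projS_eq]
  exact Finset.image_subset_image h

theorem dot_prK {K : Finset (Fin n)} {k : Fin n → ℝ} (hk : ∀ i ∈ K, k i = 0)
    (v : Fin n → ℤ) : k ⬝ᵥ toR (prK K v) = k ⬝ᵥ toR v := by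
  refine Finset.sum_congr rfl fun i _ => ?_
  by_cases hi : i ∈ K
  · rw [hk i hi, zero_mul, zero_mul]
  · simp [prK, hi]

theorem dotZ_prK {K : Finset (Fin n)} {k : Fin n → ℤ} (hk : ∀ i ∈ K, k i = 0)
    (v : Fin n → ℤ) : k ⬝ᵥ prK K v = k ⬝ᵥ v := by
  refine Finset.sum_congr rfl fun i _ => ?_
  by_cases hi : i ∈ K
  · rw [hk i hi, zero_mul, zero_mul]
  · simp [prK, hi]

theorem prK_dotZ {K : Finset (Fin n)} (k v : Fin n → ℤ) : prK K k ⬝ᵥ v = k ⬝ᵥ prK K v := by
  refine Finset.sum_congr rfl fun i _ => ?_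
  by_cases hi : i ∈ K <;> simp [prK, hi]

theorem mem_eK {K : Finset (Fin n)} {v : Fin n → ℤ} :
    v ∈ eK K ↔ ∃ k ∈ K, (Pi.single k 1 : Fin n → ℤ) = v := by
  unfold eK; rw [Finset.mem_image]

theorem single_inj {i j : Fin n} (h : (Pi.single i 1 : Fin n → ℤ) = Pi.single j 1) : i = j := by
  by_contra hij
  have := congrFun h i
  simp [hij] at this

theorem card_eK (K : Finset (Fin n)) : (eK K).card = K.card := by
  unfold eK
  exact Finset.card_image_of_injective _ (fun i j hij => single_inj hij)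

theorem indep_of_forall {F : Finset (Fin n → ℤ)}
    (h : ∀ c : (Fin n → ℤ) → ℝ, ∑ u ∈ F, c u • toR u = 0 → ∀ u ∈ F, c u = 0) : Indep F := by
  classical
  unfold Indep
  rw [Fintype.linearIndependent_iff]
  intro g hg u
  have h1 := h (fun w => if hw : w ∈ F then g ⟨w, hw⟩ else 0) (by
    rw [← hg, ← Finset.sum_coe_sort F]
    refine Finset.sum_congr rfl fun v _ => ?_
    simp) u.1 u.2
  simpa using h1

/-- The projections of the generators outside `Z` are independent. -/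
theorem proj_coeff {Z τ : Finset (Fin n → ℤ)} {K : Finset (Fin n)} (hτ : Indep τ)
    (hK : τ ∩ Z = eK K) {c : (Fin n → ℤ) → ℝ}
    (hc : ∑ u ∈ τ \ Z, c u • toR (prK K u) = 0) : ∀ u ∈ τ \ Z, c u = 0 := by
  classical
  set d : (Fin n → ℤ) → ℝ := fun v => if v ∈ Z then
    -(∑ k ∈ K, (v k : ℝ) * ∑ u ∈ τ \ Z, c u * (u k : ℝ)) else c v with hd
  have h1 : ∑ v ∈ τ, d v • toR v = 0 := by
    rw [← Finset.sum_inter_add_sum_sdiff τ Z]
    have e1 : ∑ v ∈ τ \ Z, d v • toR v = ∑ v ∈ τ \ Z, c v • toR v := by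
      refine Finset.sum_congr rfl fun v hv => ?_
      have : v ∉ Z := (Finset.mem_sdiff.1 hv).2
      simp [hd, this]
    have hZ : ∀ k ∈ K, (Pi.single k 1 : Fin n → ℤ) ∈ Z := by
      intro k hk
      have : (Pi.single k 1 : Fin n → ℤ) ∈ τ ∩ Z := by
        rw [hK, mem_eK]; exact ⟨k, hk, rfl⟩
      exact (Finset.mem_inter.1 this).2
    have e2 : ∑ v ∈ τ ∩ Z, d v • toR v =
        ∑ k ∈ K, (-(∑ u ∈ τ \ Z, c u * (u k : ℝ))) • toR (Pi.single k 1) := by
      rw [hK]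
      unfold eK
      rw [Finset.sum_image (fun i _ j _ hij => single_inj hij)]
      refine Finset.sum_congr rfl fun k hk => ?_
      congr 1
      rw [hd]
      dsimp only
      rw [if_pos (hZ k hk)]
      congr 1
      rw [Finset.sum_eq_single k]
      · simp
      · intro j _ hjk
        simp [Pi.single_apply, hjk]
      · intro h; exact absurd hk h
    rw [e1, e2]
    funext i
    have hci := congrFun hc i
    simp only [Finset.sum_apply, Pi.smul_apply, toR_apply, smul_eq_mul, Pi.zero_apply] at hci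
    simp only [Pi.add_apply, Finset.sum_apply, Pi.smul_apply, toR_apply, smul_eq_mul,
      Pi.zero_apply]
    by_cases hi : i ∈ K
    · rw [Finset.sum_eq_single i]
      · simp
      · intro j _ hji
        simp [Pi.single_apply, Ne.symm hji]
      · intro h; exact absurd hi h
    · rw [Finset.sum_eq_zero (s := K)]
      · rw [zero_add, ← hci]
        refine Finset.sum_congr rfl fun u _ => ?_
        simp [prK, hi]
      · intro j hj
        have : i ≠ j := fun h => hi (h ▸ hj)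
        simp [Pi.single_apply, this]
  intro u hu
  have h2 := hτ.sum_eq_zero h1 u (Finset.mem_sdiff.1 hu).1
  rw [hd] at h2
  dsimp only at h2
  rw [if_neg (Finset.mem_sdiff.1 hu).2] at h2
  exact h2

theorem prK_injOn {Z τ : Finset (Fin n → ℤ)} {K : Finset (Fin n)} (hτ : Indep τ)
    (hK : τ ∩ Z = eK K) {u v : Fin n → ℤ} (hu : u ∈ τ \ Z) (hv : v ∈ τ \ Z)
    (h : prK K u = prK K v) : u = v := by
  classical
  by_contra hne
  have h1 := proj_coeff hτ hK (c := fun w => (if w = u then 1 else 0) - (if w = v then 1 else 0))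
    (by
      simp only [sub_smul, Finset.sum_sub_distrib, ite_smul, one_smul, zero_smul,
        Finset.sum_ite_eq']
      rw [if_pos hu, if_pos hv, h, sub_self]) u hu
  simp [hne] at h1

theorem card_projS {Z τ : Finset (Fin n → ℤ)} {K : Finset (Fin n)} (hτ : Indep τ)
    (hK : τ ∩ Z = eK K) : (projS K (τ \ Z)).card = (τ \ Z).card := by
  rw [projS_eq]
  exact Finset.card_image_of_injOn (fun u hu v hv h => prK_injOn hτ hK hu hv h)

theorem indep_projS {Z τ : Finset (Fin n → ℤ)} {K : Finset (Fin n)} (hτ : Indep τ)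
    (hK : τ ∩ Z = eK K) : Indep (projS K (τ \ Z)) := by
  classical
  refine indep_of_forall fun c hc w hw => ?_
  rw [projS_eq, Finset.sum_image (fun u hu v hv h => prK_injOn hτ hK hu hv h)] at hc
  obtain ⟨u, hu, rfl⟩ := mem_projS.1 hw
  exact proj_coeff hτ hK (c := fun u => c (prK K u)) hc u hu

theorem mem_cs94 {τ : Finset (Fin n → ℤ)} {i : Fin n} : i ∈ cs τ ↔ ∃ u ∈ τ, u i ≠ 0 := by
  unfold cs; simp

theorem cs_split {Z τ : Finset (Fin n → ℤ)} {K : Finset (Fin n)} (hK : τ ∩ Z = eK K) :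
    (cs τ).card = K.card + (cs (projS K (τ \ Z))).card := by
  classical
  have hdis : Disjoint K (cs (projS K (τ \ Z))) := by
    rw [Finset.disjoint_left]
    intro i hi h
    obtain ⟨w, hw, hwi⟩ := mem_cs94.1 h
    obtain ⟨u, hu, rfl⟩ := mem_projS.1 hw
    simp [prK, hi] at hwi
  rw [← Finset.card_union_of_disjoint hdis]
  congr 1
  ext i
  rw [Finset.mem_union, mem_cs94, mem_cs94]
  constructor
  · rintro ⟨u, hu, hui⟩
    by_cases hi : i ∈ K
    · exact Or.inl hi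
    · right
      by_cases huZ : u ∈ Z
      · have : u ∈ eK K := by rw [← hK]; exact Finset.mem_inter.2 ⟨hu, huZ⟩
        obtain ⟨k, hk, rfl⟩ := mem_eK.1 this
        have hik : i ≠ k := fun h => hi (h ▸ hk)
        simp [hik] at hui
      · refine ⟨prK K u, mem_projS.2 ⟨u, Finset.mem_sdiff.2 ⟨hu, huZ⟩, rfl⟩, ?_⟩
        simpa [prK, hi] using hui
  · rintro (hi | ⟨w, hw, hwi⟩)
    · have : (Pi.single i 1 : Fin n → ℤ) ∈ τ ∩ Z := by rw [hK, mem_eK]; exact ⟨i, hi, rfl⟩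
      exact ⟨_, (Finset.mem_inter.1 this).1, by simp⟩
    · obtain ⟨u, hu, rfl⟩ := mem_projS.1 hw
      refine ⟨u, (Finset.mem_sdiff.1 hu).1, ?_⟩
      intro h
      apply hwi
      simp [prK, h]

theorem card_split {Z τ : Finset (Fin n → ℤ)} {K : Finset (Fin n)} (hK : τ ∩ Z = eK K) :
    τ.card = K.card + (τ \ Z).card := by
  rw [← card_eK K, ← hK, Finset.card_inter_add_card_sdiff]

theorem latDistZ_eq {Z τ : Finset (Fin n → ℤ)} {K : Finset (Fin n)} (hK : τ ∩ Z = eK K) :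
    latDistZ Z τ = latDist (projS K (τ \ Z)) := by
  unfold latDistZ latDist
  congr 1
  ext N
  constructor
  · rintro ⟨h1, k, hk, hkZ⟩
    refine ⟨h1, k, fun w hw => ?_⟩
    obtain ⟨u, hu, rfl⟩ := mem_projS.1 hw
    rw [← hk u hu]
    refine dotZ_prK (fun i hi => ?_) u
    have := hkZ (Pi.single i 1) (by rw [hK, mem_eK]; exact ⟨i, hi, rfl⟩)
    simpa using this
  · rintro ⟨h1, k, hk⟩
    refine ⟨h1, prK K k, fun u hu => ?_, fun u hu => ?_⟩
    · rw [prK_dotZ]
      exact hk _ (mem_projS.2 ⟨u, hu, rfl⟩)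
    · rw [hK] at hu
      obtain ⟨i, hi, rfl⟩ := mem_eK.1 hu
      simp [prK, hi]

/-- Real version of `dot_vectorSpan`. -/
theorem dot_vectorSpanR {τ : Finset (Fin n → ℤ)} {k : Fin n → ℝ} {m : ℝ}
    (h : ∀ u ∈ τ, k ⬝ᵥ toR u = m) : ∀ x ∈ vectorSpan ℝ (toR '' (τ : Set (Fin n → ℤ))),
    k ⬝ᵥ x = 0 := by
  intro x hx
  unfold vectorSpan at hx
  induction hx using Submodule.span_induction with
  | mem x hx =>
    obtain ⟨_, ⟨u, hu, rfl⟩, _, ⟨v, hv, rfl⟩, rfl⟩ := hx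
    change k ⬝ᵥ (toR u - toR v) = 0
    rw [dotProduct_sub, h u hu, h v hv, sub_self]
  | zero => simp
  | add x y _ _ hx hy => rw [dotProduct_add, hx, hy, add_zero]
  | smul a x _ hx => rw [dotProduct_smul, hx, smul_zero]

theorem const_of_dimR {τ φ : Finset (Fin n → ℤ)} (hne : τ.Nonempty) (h : τ ⊆ φ)
    (hd : dimF φ ≤ dimF τ) {k : Fin n → ℝ} {m : ℝ} (hk : ∀ u ∈ τ, k ⬝ᵥ toR u = m) :
    ∀ u ∈ φ, k ⬝ᵥ toR u = m := by
  intro u hu
  obtain ⟨v, hv⟩ := hne
  have h1 : toR u - toR v ∈ vectorSpan ℝ (toR '' (τ : Set (Fin n → ℤ))) := by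
    rw [vectorSpan_eq h hd, ← vsub_eq_sub]
    exact vsub_mem_vectorSpan ℝ ⟨u, hu, rfl⟩ ⟨v, h hv, rfl⟩
  have h2 := dot_vectorSpanR hk _ h1
  rw [dotProduct_sub, hk v hv] at h2
  linarith

theorem dimF_lt_csR {φ : Finset (Fin n → ℤ)} (hne : φ.Nonempty) {k : Fin n → ℝ}
    (hk : ∀ u ∈ φ, k ⬝ᵥ toR u = 1) : dimF φ < (cs φ).card := by
  classical
  obtain ⟨v₀, hv₀⟩ := hne
  let W : Submodule ℝ (Fin n → ℝ) :=
    { carrier := {x | ∀ i, i ∉ cs φ → x i = 0}
      zero_mem' := fun i _ => rfl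
      add_mem' := fun hx hy i hi => by simp [hx i hi, hy i hi]
      smul_mem' := fun a x hx i hi => by simp [hx i hi] }
  have hWmem : ∀ v ∈ φ, toR v ∈ W := by
    intro v hv i hi
    have : v i = 0 := by
      by_contra hvi
      exact hi (mem_cs94.2 ⟨v, hv, hvi⟩)
    simp [this]
  have hlt : vectorSpan ℝ (toR '' (φ : Set (Fin n → ℤ))) < W := by
    refine lt_of_le_of_ne ?_ ?_
    · unfold vectorSpan
      rw [Submodule.span_le]
      rintro _ ⟨_, ⟨u, hu, rfl⟩, _, ⟨v, hv, rfl⟩, rfl⟩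
      exact W.sub_mem (hWmem u hu) (hWmem v hv)
    · intro heq
      have h1 := dot_vectorSpanR hk (toR v₀) (by rw [heq]; exact hWmem v₀ hv₀)
      rw [hk v₀ hv₀] at h1
      exact one_ne_zero h1
  have h1 := Submodule.finrank_lt_finrank_of_lt hlt
  have h2 : Module.finrank ℝ W ≤ (cs φ).card := by
    let r : W →ₗ[ℝ] (cs φ → ℝ) :=
      { toFun := fun x i => x.1 i.1
        map_add' := fun x y => rfl
        map_smul' := fun a x => rfl }
    have hr : Function.Injective r := by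
      intro x y hxy
      apply Subtype.ext
      funext i
      by_cases hi : i ∈ cs φ
      · exact congrFun hxy ⟨i, hi⟩
      · rw [x.2 i hi, y.2 i hi]
    have := LinearMap.finrank_le_finrank_of_injective hr
    simpa using this
  unfold dimF
  omega

theorem mem_cellsS {A : Finset (Fin n → ℤ)} {K : Finset (Fin n)} {b : Fin n → ℝ}
    {φ : Finset (Fin n → ℤ)} : φ ∈ cellsS A K b ↔ ∃ k l : Fin n → ℝ,
    (∀ i ∈ K, k i = 0 ∧ l i = b i) ∧ (∀ i, i ∉ K → 0 < k i ∨ (k i = 0 ∧ b i < l i)) ∧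
    (∀ v ∈ A, 1 < k ⬝ᵥ toR v ∨ (k ⬝ᵥ toR v = 1 ∧ 0 ≤ l ⬝ᵥ toR v)) ∧
    (∀ v, v ∈ φ ↔ v ∈ A ∧ k ⬝ᵥ toR v = 1 ∧ l ⬝ᵥ toR v = 0) := by
  classical
  unfold cellsS
  rw [Finset.mem_filter, Finset.mem_powerset]
  constructor
  · rintro ⟨-, k, l, h1, h2, h3, rfl⟩
    exact ⟨k, l, h1, h2, h3, fun v => Finset.mem_filter⟩
  · rintro ⟨k, l, h1, h2, h3, h4⟩
    refine ⟨fun v hv => ((h4 v).1 hv).1, k, l, h1, h2, h3, ?_⟩
    ext v
    rw [h4, Finset.mem_filter]

theorem cell_const {A : Finset (Fin n → ℤ)} {K : Finset (Fin n)} {b : Fin n → ℝ}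
    {φ : Finset (Fin n → ℤ)} (h : φ ∈ cellsS A K b) : ∃ k : Fin n → ℝ,
    ∀ u ∈ projS K φ, k ⬝ᵥ toR u = 1 := by
  obtain ⟨k, l, h1, h2, h3, h4⟩ := mem_cellsS.1 h
  refine ⟨k, fun w hw => ?_⟩
  obtain ⟨u, hu, rfl⟩ := mem_projS.1 hw
  rw [dot_prK (fun i hi => (h1 i hi).1)]
  exact ((h4 u).1 hu).2.1

/-- One cell contains the other. -/
theorem cell_sub {A Z τ : Finset (Fin n → ℤ)} {K : Finset (Fin n)} {b : Fin n → ℝ}
    {φ ψ : Finset (Fin n → ℤ)} (hφ : φ ∈ cellsS A K b) (hψ : ψ ∈ cellsS A K b)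
    (hτ : Indep τ) (hK : τ ∩ Z = eK K) (hne : (τ \ Z).Nonempty) (h1 : τ \ Z ⊆ φ)
    (h2 : τ \ Z ⊆ ψ) (h3 : (τ \ Z).card = dimF (projS K φ) + 1) : φ ⊆ ψ := by
  obtain ⟨k, l, a1, a2, a3, a4⟩ := mem_cellsS.1 hφ
  obtain ⟨k', l', b1, b2, b3, b4⟩ := mem_cellsS.1 hψ
  have hne' : (projS K (τ \ Z)).Nonempty := by
    rw [projS_eq]; exact hne.image _
  have hsub : projS K (τ \ Z) ⊆ projS K φ := projS_mono h1
  have hd : dimF (projS K φ) ≤ dimF (projS K (τ \ Z)) := by
    have := card_le_dimF (indep_projS hτ hK) hne' (Finset.Subset.refl _)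
    rw [card_projS hτ hK] at this
    omega
  intro v hv
  have hvp : prK K v ∈ projS K φ := mem_projS.2 ⟨v, hv, rfl⟩
  have hk := const_of_dimR hne' hsub hd (k := k') (m := 1) (by
    intro w hw
    obtain ⟨u, hu, rfl⟩ := mem_projS.1 hw
    rw [dot_prK (fun i hi => (b1 i hi).1)]
    exact ((b4 u).1 (h2 hu)).2.1) _ hvp
  rw [dot_prK (fun i hi => (b1 i hi).1)] at hk
  have hl0 : ∀ i ∈ K, (l' - l) i = 0 := by
    intro i hi
    rw [Pi.sub_apply, (b1 i hi).2, (a1 i hi).2, sub_self]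
  have hl := const_of_dimR hne' hsub hd (k := l' - l) (m := 0) (by
    intro w hw
    obtain ⟨u, hu, rfl⟩ := mem_projS.1 hw
    rw [dot_prK hl0, sub_dotProduct, ((b4 u).1 (h2 hu)).2.2, ((a4 u).1 (h1 hu)).2.2,
      sub_self]) _ hvp
  rw [dot_prK hl0, sub_dotProduct, ((a4 v).1 hv).2.2, sub_zero] at hl
  exact (b4 v).2 ⟨((a4 v).1 hv).1, hk, hl⟩

/-- Existence of the cell of a simplex. -/
theorem exists_cell {A Z τ : Finset (Fin n → ℤ)} {K : Finset (Fin n)} {b : Fin n → ℝ}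
    {Φ : Fan n} (hT : Tri A Z Φ) (hB : BFan A Z b Φ) (hτ : Φ.IsFace τ) (hK : τ ∩ Z = eK K)
    (hne : (τ \ Z).Nonempty) (hc : τ.card = (cs τ).card) :
    ∃ φ ∈ cellsS A K b, τ \ Z ⊆ φ ∧ (τ \ Z).card = dimF (projS K φ) + 1 ∧
      dimF (projS K φ) + 1 = (cs (projS K φ)).card := by
  classical
  obtain ⟨hA, hAp, h0, hAZ, hv, hN, hnice⟩ := hT
  have hτi : Indep τ := Fan.IsFace.indep Φ hτ
  obtain ⟨F, hF, hτF⟩ := hτ
  obtain ⟨k, l, c1, c2, c3, c4⟩ := hB F hF
  have hFi : Indep F := Φ.mx_indep F hF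
  set e : Fin n → ℝ := fun i => if i ∈ cs τ then 0 else 2 with he
  have hknn : ∀ i, 0 ≤ k i := by
    intro i
    by_cases h : (Pi.single i 1 : Fin n → ℤ) ∈ F ∩ Z
    · rw [(c2 i h).1]
    · rcases c3 i h with h | h
      · exact h.le
      · rw [h.1]
  have hKcs : ∀ i ∈ K, (Pi.single i 1 : Fin n → ℤ) ∈ τ ∩ Z ∧ i ∈ cs τ := by
    intro i hi
    have h1 : (Pi.single i 1 : Fin n → ℤ) ∈ τ ∩ Z := by rw [hK, mem_eK]; exact ⟨i, hi, rfl⟩
    exact ⟨h1, mem_cs94.2 ⟨_, (Finset.mem_inter.1 h1).1, by simp⟩⟩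
  -- a vector e_i, i ∈ cs τ, in F ∩ Z belongs to τ
  have hnot : ∀ i, i ∉ K → i ∈ cs τ → (Pi.single i 1 : Fin n → ℤ) ∉ F ∩ Z := by
    intro i hi hics hmem
    obtain ⟨hiF, hiZ⟩ := Finset.mem_inter.1 hmem
    by_cases hiτ : (Pi.single i 1 : Fin n → ℤ) ∈ τ
    · have : (Pi.single i 1 : Fin n → ℤ) ∈ eK K := by
        rw [← hK]; exact Finset.mem_inter.2 ⟨hiτ, hiZ⟩
      obtain ⟨j, hj, hji⟩ := mem_eK.1 this
      exact hi (single_inj hji ▸ hj)
    · have h1 : Indep (insert (Pi.single i 1 : Fin n → ℤ) τ) :=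
        hFi.subset (Finset.insert_subset hiF hτF)
      have h2 := h1.card_le (cs τ) (by
        intro u hu j hj
        rcases Finset.mem_insert.1 hu with rfl | hu
        · have : j ≠ i := fun h => hj (h ▸ hics)
          simp [this]
        · by_contra hne
          exact hj (mem_cs94.2 ⟨u, hu, hne⟩))
      rw [Finset.card_insert_of_notMem hiτ] at h2
      omega
  -- e on A
  have heA : ∀ v ∈ A, (∃ i, i ∉ cs τ ∧ v i ≠ 0) → 2 ≤ e ⬝ᵥ toR v := by
    rintro v hv ⟨i, hi, hvi⟩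
    have h1 : e i * toR v i ≤ e ⬝ᵥ toR v := by
      refine Finset.single_le_sum (f := fun j => e j * toR v j) (fun j _ => mul_nonneg ?_ ?_)
        (Finset.mem_univ i)
      · rw [he]; dsimp only; split_ifs <;> norm_num
      · rw [toR_apply]; exact_mod_cast hAp v hv j
    have h2 : (1 : ℝ) ≤ v i := by
      have : 0 ≤ v i := hAp v hv i
      have : 1 ≤ v i := by omega
      exact_mod_cast this
    have h3 : e i = 2 := by rw [he]; dsimp only; rw [if_neg hi]
    rw [h3, toR_apply] at h1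
    linarith
  have heA' : ∀ v : Fin n → ℤ, (¬ ∃ i, i ∉ cs τ ∧ v i ≠ 0) → e ⬝ᵥ toR v = 0 := by
    intro v hv
    refine Finset.sum_eq_zero fun i _ => ?_
    by_cases hi : i ∈ cs τ
    · rw [he]; dsimp only; rw [if_pos hi, zero_mul]
    · have : v i = 0 := by
        by_contra hvi
        exact hv ⟨i, hi, hvi⟩
      rw [toR_apply, this]; simp
  have hkA : ∀ v ∈ A, 1 ≤ k ⬝ᵥ toR v := by
    intro v hv
    rcases c4 v hv with h | h
    · exact h.le
    · exact h.1.ge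
  set φ : Finset (Fin n → ℤ) := A.filter (fun v => (k + e) ⬝ᵥ toR v = 1 ∧ l ⬝ᵥ toR v = 0) with hφ
  have hmem : ∀ v, v ∈ φ ↔ v ∈ A ∧ (k + e) ⬝ᵥ toR v = 1 ∧ l ⬝ᵥ toR v = 0 := by
    intro v; rw [hφ, Finset.mem_filter]
  have hcell : φ ∈ cellsS A K b := by
    rw [mem_cellsS]
    refine ⟨k + e, l, ?_, ?_, ?_, hmem⟩
    · intro i hi
      obtain ⟨h1, h2⟩ := hKcs i hi
      have h3 : (Pi.single i 1 : Fin n → ℤ) ∈ F ∩ Z :=
        Finset.mem_inter.2 ⟨hτF (Finset.mem_inter.1 h1).1, (Finset.mem_inter.1 h1).2⟩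
      obtain ⟨h4, h5⟩ := c2 i h3
      refine ⟨?_, h5⟩
      rw [Pi.add_apply, h4, he]
      dsimp only
      rw [if_pos h2, add_zero]
    · intro i hi
      by_cases hics : i ∈ cs τ
      · have h1 : (k + e) i = k i := by
          rw [Pi.add_apply, he]; dsimp only; rw [if_pos hics, add_zero]
        rw [h1]
        exact c3 i (hnot i hi hics)
      · left
        have h1 : (k + e) i = k i + 2 := by
          rw [Pi.add_apply, he]; dsimp only; rw [if_neg hics]
        rw [h1]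
        linarith [hknn i]
    · intro v hv
      rw [add_dotProduct]
      by_cases hex : ∃ i, i ∉ cs τ ∧ v i ≠ 0
      · left
        linarith [heA v hv hex, hkA v hv]
      · rw [heA' v hex, add_zero]
        exact c4 v hv
  have hsub : τ \ Z ⊆ φ := by
    intro u hu
    obtain ⟨h1, h2⟩ := Finset.mem_sdiff.1 hu
    have h3 : u ∈ A := by
      have := Φ.mx_sub F hF (hτF h1)
      rw [hv, Finset.mem_union] at this
      exact this.resolve_right h2
    have h4 := c1 u (Finset.mem_sdiff.2 ⟨hτF h1, h2⟩)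
    rw [hmem]
    refine ⟨h3, ?_, h4.2⟩
    rw [add_dotProduct, h4.1, heA' u (by
      rintro ⟨i, hi, hui⟩
      exact hi (mem_cs94.2 ⟨u, h1, hui⟩)), add_zero]
  have hcsφ : cs (projS K φ) ⊆ cs (projS K (τ \ Z)) := by
    intro i hi
    obtain ⟨w, hw, hwi⟩ := mem_cs94.1 hi
    obtain ⟨v, hv, rfl⟩ := mem_projS.1 hw
    have hiK : i ∉ K := by
      intro h
      simp [prK, h] at hwi
    have hvi : v i ≠ 0 := by simpa [prK, hiK] using hwi
    have h1 := (hmem v).1 hv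
    have h2 : i ∈ cs τ := by
      by_contra hics
      have h3 := heA v h1.1 ⟨i, hics, hvi⟩
      have h4 := hkA v h1.1
      have h5 := h1.2.1
      rw [add_dotProduct] at h5
      linarith
    obtain ⟨u, hu, hui⟩ := mem_cs94.1 h2
    have huZ : u ∉ Z := by
      intro huZ
      have : u ∈ eK K := by rw [← hK]; exact Finset.mem_inter.2 ⟨hu, huZ⟩
      obtain ⟨j, hj, rfl⟩ := mem_eK.1 this
      have : i ≠ j := fun h => hiK (h ▸ hj)
      simp [this] at hui
    refine mem_cs94.2 ⟨prK K u, mem_projS.2 ⟨u, Finset.mem_sdiff.2 ⟨hu, huZ⟩, rfl⟩, ?_⟩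
    simpa [prK, hiK] using hui
  have hne' : (projS K (τ \ Z)).Nonempty := by
    rw [projS_eq]; exact hne.image _
  have hsub' : projS K (τ \ Z) ⊆ projS K φ := projS_mono hsub
  have e1 := card_split hK
  have e2 := cs_split hK
  have e3 := card_projS hτi hK
  have e4 := card_le_dimF (indep_projS hτi hK) hne' hsub'
  have e5 := Finset.card_le_card hcsφ
  obtain ⟨k₁, hk₁⟩ := cell_const hcell
  have e6 := dimF_lt_csR (hne'.mono hsub') hk₁
  exact ⟨φ, hcell, hsub, by omega, by omega⟩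

/-- The simplices of a cell. -/
theorem cell_conv {A Z τ : Finset (Fin n → ℤ)} {K : Finset (Fin n)} {b : Fin n → ℝ}
    {φ : Finset (Fin n → ℤ)} (hφ : φ ∈ cellsS A K b) (hτ : Indep τ) (hK : τ ∩ Z = eK K)
    (hsub : τ \ Z ⊆ φ) (hc : (τ \ Z).card = dimF (projS K φ) + 1)
    (hd : dimF (projS K φ) + 1 = (cs (projS K φ)).card) :
    τ.card = (cs τ).card ∧ latDistZ Z τ = latDist (projS K φ) := by
  have hne : (τ \ Z).Nonempty := Finset.card_pos.1 (by omega)
  have hne' : (projS K (τ \ Z)).Nonempty := by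
    rw [projS_eq]; exact hne.image _
  have hsub' : projS K (τ \ Z) ⊆ projS K φ := projS_mono hsub
  have e1 := card_split hK
  have e2 := cs_split hK
  have e3 := card_projS hτ hK
  have e4 := card_le_dimF (indep_projS hτ hK) hne' (Finset.Subset.refl _)
  have e5 : (projS K (τ \ Z)).card ≤ (cs (projS K (τ \ Z))).card := by
    refine (indep_projS hτ hK).card_le _ ?_
    intro u hu i hi
    by_contra h
    exact hi (mem_cs94.2 ⟨u, hu, h⟩)
  have e6 : (cs (projS K (τ \ Z))).card ≤ (cs (projS K φ)).card := by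
    refine Finset.card_le_card ?_
    intro i hi
    obtain ⟨u, hu, hui⟩ := mem_cs94.1 hi
    exact mem_cs94.2 ⟨u, hsub' hu, hui⟩
  refine ⟨by omega, ?_⟩
  rw [latDistZ_eq hK, latDist_eq hne' hsub' (by omega)]

end C94

open C94 in
/-- Packet S5. -/
theorem cellSum (h : CellVol) : CellSum := by
  classical
  intro n A Z b Φ hT hB hb K m
  have hL : ∑ φ ∈ (cellsS A K b).filter (fun φ => dimF (projS K φ) + 1 = (cs (projS K φ)).card ∧
      m ∣ latDist (projS K φ)), (-1 : ℤ) ^ dimF (projS K φ) * nvol (projS K φ) =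
      ∑ φ ∈ (cellsS A K b).filter (fun φ => dimF (projS K φ) + 1 = (cs (projS K φ)).card ∧
      m ∣ latDist (projS K φ)), ∑ ρ ∈ Φ.faces.filter (fun ρ => ρ ∩ Z = eK K ∧ ρ \ Z ⊆ φ ∧
    (ρ \ Z).card = dimF (projS K φ) + 1), (-1 : ℤ) ^ ((ρ \ Z).card - 1) * (volZ Z ρ : ℤ) := by
    refine Finset.sum_congr rfl fun φ hφ => ?_
    rw [h n A Z b Φ hT hB hb K φ (Finset.mem_filter.1 hφ).1, Finset.mul_sum]
    refine Finset.sum_congr rfl fun ρ hρ => ?_
    rw [(Finset.mem_filter.1 hρ).2.2.2, Nat.add_sub_cancel]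
  rw [hL]
  rw [Finset.sum_comm' (s' := fun τ => (cellsS A K b).filter (fun φ => τ \ Z ⊆ φ ∧
      (τ \ Z).card = dimF (projS K φ) + 1))
    (t' := Φ.faces.filter (fun τ => τ ∩ Z = eK K ∧ ¬ τ ⊆ Z ∧ τ.card = (cs τ).card ∧
      m ∣ latDistZ Z τ))]
  · refine Finset.sum_congr rfl fun τ hτ => ?_
    obtain ⟨hf, hK, hZ, hc, hm⟩ := Finset.mem_filter.1 hτ
    have hτf := (Fan.mem_faces Φ).1 hf
    have hne : (τ \ Z).Nonempty := by
      rw [Finset.nonempty_iff_ne_empty]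
      intro h0
      exact hZ (Finset.sdiff_eq_empty_iff_subset.1 h0)
    obtain ⟨φ, h1, h2, h3, h4⟩ := exists_cell hT hB hτf hK hne hc
    have hset : (cellsS A K b).filter (fun φ => τ \ Z ⊆ φ ∧
      (τ \ Z).card = dimF (projS K φ) + 1) = {φ} := by
      ext ψ
      rw [Finset.mem_filter, Finset.mem_singleton]
      constructor
      · rintro ⟨g1, g2, g3⟩
        have hi := Fan.IsFace.indep Φ hτf
        exact Finset.Subset.antisymm (cell_sub g1 h1 hi hK hne g2 h2 g3)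
          (cell_sub h1 g1 hi hK hne h2 g2 h3)
      · rintro rfl
        exact ⟨h1, h2, h3⟩
    rw [hset, Finset.sum_singleton]
  · intro φ τ
    simp only [Finset.mem_filter]
    constructor
    · rintro ⟨⟨h1, h2, h3⟩, h4, h5, h6, h7⟩
      have hi := Fan.IsFace.indep Φ ((Fan.mem_faces Φ).1 h4)
      obtain ⟨g1, g2⟩ := cell_conv h1 hi h5 h6 h7 h2
      refine ⟨⟨h1, h6, h7⟩, h4, h5, ?_, g1, g2 ▸ h3⟩
      intro h8
      rw [Finset.sdiff_eq_empty_iff_subset.2 h8] at h7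
      simp at h7
    · rintro ⟨⟨h1, h6, h7⟩, h4, h5, h8, h9, h10⟩
      have hf := (Fan.mem_faces Φ).1 h4
      have hi := Fan.IsFace.indep Φ hf
      have hne : (τ \ Z).Nonempty := by
        rw [Finset.nonempty_iff_ne_empty]
        intro h0
        exact h8 (Finset.sdiff_eq_empty_iff_subset.1 h0)
      obtain ⟨ψ, g1, g2, g3, g4⟩ := exists_cell hT hB hf h5 hne h9
      have heq : φ = ψ := Finset.Subset.antisymm (cell_sub h1 g1 hi h5 hne h6 g2 h7)
          (cell_sub g1 h1 hi h5 hne g2 h6 g3)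
      subst heq
      have := (cell_conv h1 hi h5 h6 h7 g4).2
      exact ⟨⟨h1, g4, this ▸ h10⟩, h4, h5, h6, h7⟩

end Mono
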