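import Pool.Agent.Helper20.Mono.GoalsG

/-! Linear algebra for `SidePrimal`. -/

namespace Mono

open Finset

variable {n : ℕ}

theorem toR_dot (a b : Fin n → ℤ) : toR a ⬝ᵥ toR b = ((a ⬝ᵥ b : ℤ) : ℝ) := by
  simp [dotProduct]

theorem dot_toR_comm (a b : Fin n → ℤ) : a ⬝ᵥ b = b ⬝ᵥ a := dotProduct_comm a b

theorem toR_rel (Z : Finset (Fin n → ℤ)) (u₀ u : Fin n → ℤ) :
    toR (rel Z u₀ u) = toR u - (if u ∈ Z then (0 : ℝ) else 1) • toR u₀ := by
  unfold rel
  split_ifs with h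
  · simp
  · funext i
    simp

/-- An independent set of vectors supported in `T` has at most `|T|` elements. -/
theorem Indep.card_le {G : Finset (Fin n → ℤ)} (hG : Indep G) (T : Finset (Fin n))
    (hT : ∀ u ∈ G, ∀ i, i ∉ T → u i = 0) : G.card ≤ T.card := by
  classical
  have hli : LinearIndependent ℝ (fun u : G => (fun i : T => ((u : Fin n → ℤ) i : ℝ))) := by
    rw [Fintype.linearIndependent_iff]
    intro g hg
    refine (Fintype.linearIndependent_iff.1 hG) g ?_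
    funext i
    by_cases hi : i ∈ T
    · have := congrFun hg ⟨i, hi⟩
      simpa using this
    · simp only [Finset.sum_apply, Pi.smul_apply, toR_apply, smul_eq_mul, Pi.zero_apply]
      refine Finset.sum_eq_zero fun u _ => ?_
      rw [hT u.1 u.2 i hi]
      simp
  have := hli.fintype_card_le_finrank
  simpa using this

/-- The vectors orthogonal to `ε` and `κ` are combinations of the edges of `τ`. -/
theorem orth_mem_span {τ ε Z : Finset (Fin n → ℤ)} {u₀ κ : Fin n → ℤ}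
    (hτ : Indep τ) (hε : Indep ε) (hcard : ε.card + τ.card = n) (hu₀ : u₀ ∈ τ \ Z)
    (hoε : ∀ a ∈ ε, ∀ u ∈ τ, a ⬝ᵥ rel Z u₀ u = 0) (hoκ : ∀ u ∈ τ, κ ⬝ᵥ rel Z u₀ u = 0)
    (hκ : toR κ ∉ Submodule.span ℝ (toR '' (ε : Set (Fin n → ℤ))))
    (x : Fin n → ℝ) (hxε : ∀ a ∈ ε, toR a ⬝ᵥ x = 0) (hxκ : toR κ ⬝ᵥ x = 0) :
    ∃ c : (Fin n → ℤ) → ℝ, x = ∑ u ∈ τ, c u • toR u ∧ ∑ u ∈ τ \ Z, c u = 0 := by
  classical
  have hu₀τ : u₀ ∈ τ := (Finset.mem_sdiff.1 hu₀).1
  have hu₀Z : u₀ ∉ Z := (Finset.mem_sdiff.1 hu₀).2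
  set M : Matrix (Option ε) (Fin n) ℝ :=
    fun o => Option.casesOn' o (toR κ) (fun a : ε => toR (a : Fin n → ℤ)) with hM
  have hMi : LinearIndependent ℝ M := by
    rw [hM]
    rw [linearIndependent_option']
    refine ⟨hε, ?_⟩
    have hset : toR '' (ε : Set (Fin n → ℤ)) =
        Set.range (fun a : ε => toR (a : Fin n → ℤ)) := by
      ext y
      constructor
      · rintro ⟨a, ha, rfl⟩
        exact ⟨⟨a, ha⟩, rfl⟩
      · rintro ⟨a, rfl⟩
        exact ⟨a.1, a.2, rfl⟩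
    rw [hset] at hκ
    exact hκ
  have hrank : M.rank = ε.card + 1 := by
    rw [LinearIndependent.rank_matrix (M := M) hMi]
    simp
  have hdim := LinearMap.finrank_range_add_finrank_ker M.mulVecLin
  have hr : Module.finrank ℝ (LinearMap.range M.mulVecLin) = ε.card + 1 := hrank
  rw [hr] at hdim
  have hn : Module.finrank ℝ (Fin n → ℝ) = n := by simp
  rw [hn] at hdim
  have hmem : ∀ y : Fin n → ℝ, (∀ a ∈ ε, toR a ⬝ᵥ y = 0) → toR κ ⬝ᵥ y = 0 →
      y ∈ LinearMap.ker M.mulVecLin := by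
    intro y h1 h2
    rw [LinearMap.mem_ker, Matrix.mulVecLin_apply]
    funext o
    cases o with
    | none => exact h2
    | some a => exact h1 a.1 a.2
  let b : ↥(τ.erase u₀) → LinearMap.ker M.mulVecLin := fun u =>
    ⟨toR (rel Z u₀ u.1), hmem _ (fun a ha => by
      rw [toR_dot, hoε a ha u.1 (Finset.mem_of_mem_erase u.2)]; simp) (by
      rw [toR_dot, hoκ u.1 (Finset.mem_of_mem_erase u.2)]; simp)⟩
  have hsum : ∀ d : (Fin n → ℤ) → ℝ, ∑ u ∈ τ.erase u₀, d u • toR (rel Z u₀ u) =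
      ∑ u ∈ τ, (if u = u₀ then -∑ w ∈ (τ.erase u₀) \ Z, d w else d u) • toR u := by
    intro d
    rw [← Finset.add_sum_erase τ _ hu₀τ]
    rw [if_pos rfl]
    have h1 : ∑ u ∈ τ.erase u₀, (if u = u₀ then -∑ w ∈ (τ.erase u₀) \ Z, d w else d u) • toR u =
        ∑ u ∈ τ.erase u₀, d u • toR u := by
      refine Finset.sum_congr rfl fun u hu => ?_
      rw [if_neg (Finset.ne_of_mem_erase hu)]
    rw [h1]
    have h2 : ∑ u ∈ τ.erase u₀, d u • toR (rel Z u₀ u) =
        ∑ u ∈ τ.erase u₀, (d u • toR u - (d u * (if u ∈ Z then (0 : ℝ) else 1)) • toR u₀) := by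
      refine Finset.sum_congr rfl fun u _ => ?_
      rw [toR_rel, smul_sub, smul_smul]
    rw [h2, Finset.sum_sub_distrib, ← Finset.sum_smul]
    have h3 : ∑ u ∈ τ.erase u₀, (d u * (if u ∈ Z then (0 : ℝ) else 1)) =
        ∑ w ∈ (τ.erase u₀) \ Z, d w := by
      rw [Finset.sdiff_eq_filter, Finset.sum_filter]
      refine Finset.sum_congr rfl fun u _ => ?_
      by_cases h : u ∈ Z <;> simp [h]
    rw [h3, neg_smul]
    abel
  have hbi : LinearIndependent ℝ b := by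
    rw [Fintype.linearIndependent_iff]
    intro g hg u
    have hg' : ∑ u : (τ.erase u₀ : Finset (Fin n → ℤ)), g u • toR (rel Z u₀ u.1) = 0 := by
      have := congrArg Subtype.val hg
      simpa using this
    let d : (Fin n → ℤ) → ℝ := fun v => if hv : v ∈ τ.erase u₀ then g ⟨v, hv⟩ else 0
    have hd : ∑ u ∈ τ.erase u₀, d u • toR (rel Z u₀ u) = 0 := by
      rw [← hg', ← Finset.sum_coe_sort (τ.erase u₀)]
      refine Finset.sum_congr rfl fun v _ => ?_
      simp only [d]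
      rw [dif_pos v.2]
    rw [hsum] at hd
    have h0 := hτ.sum_eq_zero hd u.1 (Finset.mem_of_mem_erase u.2)
    rw [if_neg (Finset.ne_of_mem_erase u.2)] at h0
    simp only [d] at h0
    rw [dif_pos u.2] at h0
    exact h0
  have hcardb : Fintype.card (τ.erase u₀ : Finset (Fin n → ℤ)) =
      Module.finrank ℝ (LinearMap.ker M.mulVecLin) := by
    rw [Fintype.card_coe, Finset.card_erase_of_mem hu₀τ]
    have : 0 < τ.card := Finset.card_pos.2 ⟨u₀, hu₀τ⟩
    omega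
  have htop : Submodule.span ℝ (Set.range b) = ⊤ :=
    LinearIndependent.span_eq_top_of_card_eq_finrank' hbi hcardb
  have hx : (⟨x, hmem x hxε hxκ⟩ : LinearMap.ker M.mulVecLin) ∈ Submodule.span ℝ (Set.range b) := by
    rw [htop]; trivial
  rw [Submodule.mem_span_range_iff_exists_fun] at hx
  obtain ⟨g, hg⟩ := hx
  let d : (Fin n → ℤ) → ℝ := fun v => if hv : v ∈ τ.erase u₀ then g ⟨v, hv⟩ else 0
  have hxd : x = ∑ u ∈ τ.erase u₀, d u • toR (rel Z u₀ u) := by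
    have h1 := congrArg Subtype.val hg
    have h2 : ∑ u : (τ.erase u₀ : Finset (Fin n → ℤ)), g u • toR (rel Z u₀ u.1) = x := by
      simpa using h1
    rw [← h2, ← Finset.sum_coe_sort (τ.erase u₀)]
    refine Finset.sum_congr rfl fun v _ => ?_
    simp only [d]
    rw [dif_pos v.2]
  refine ⟨fun u => if u = u₀ then -∑ w ∈ (τ.erase u₀) \ Z, d w else d u, ?_, ?_⟩
  · rw [hxd, hsum]
  · have hu : u₀ ∈ τ \ Z := hu₀
    rw [← Finset.add_sum_erase (τ \ Z) _ hu, if_pos rfl]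
    have h1 : (τ \ Z).erase u₀ = (τ.erase u₀) \ Z := by
      ext v
      simp only [Finset.mem_erase, Finset.mem_sdiff]
      tauto
    rw [h1]
    have h2 : ∑ u ∈ (τ.erase u₀) \ Z, (if u = u₀ then -∑ w ∈ (τ.erase u₀) \ Z, d w else d u) =
        ∑ w ∈ (τ.erase u₀) \ Z, d w := by
      refine Finset.sum_congr rfl fun u hu => ?_
      rw [if_neg (Finset.ne_of_mem_erase (Finset.mem_sdiff.1 hu).1)]
    rw [h2]
    ring

theorem NA_le {A : Finset (Fin n → ℤ)} {a v : Fin n → ℤ} (hv : v ∈ A) : NA A a ≤ a ⬝ᵥ v := by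
  classical
  refine csInf_le ?_ ⟨v, hv, rfl⟩
  have : {z | ∃ v ∈ A, z = a ⬝ᵥ v} = ((A.image (fun v => a ⬝ᵥ v) : Finset ℤ) : Set ℤ) := by
    ext z
    simp [eq_comm]
  rw [this]
  exact Finset.bddBelow _

theorem NA_nonneg {A : Finset (Fin n → ℤ)} {a : Fin n → ℤ} (hne : A.Nonempty)
    (ha : ∀ i, 0 ≤ a i) (hA : ∀ v ∈ A, ∀ i, 0 ≤ v i) : 0 ≤ NA A a := by
  obtain ⟨v, hv⟩ := hne
  refine le_csInf ⟨a ⬝ᵥ v, v, hv, rfl⟩ ?_
  rintro z ⟨w, hw, rfl⟩
  exact Finset.sum_nonneg fun i _ => mul_nonneg (ha i) (hA w hw i)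

end Mono
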