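import Pool.Agent.Helper20.Mono.GoalsH
import Pool.Agent.Helper94.Mono.SideLin

/-! Carriers: the smallest compact face containing a simplex. -/

namespace Mono

open Finset

variable {n : ℕ}

theorem mem_face {A : Finset (Fin n → ℤ)} {a v : Fin n → ℤ} :
    v ∈ face A a ↔ v ∈ A ∧ a ⬝ᵥ v = NA A a := by
  unfold face; rw [Finset.mem_filter]

theorem NA_eq {A : Finset (Fin n → ℤ)} {a : Fin n → ℤ} {m : ℤ} (h1 : ∀ v ∈ A, m ≤ a ⬝ᵥ v)
    (h2 : ∃ v ∈ A, a ⬝ᵥ v = m) : NA A a = m := by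
  obtain ⟨v, hv, hvm⟩ := h2
  refine le_antisymm (hvm ▸ NA_le hv) ?_
  refine le_csInf ⟨a ⬝ᵥ v, v, hv, rfl⟩ ?_
  rintro z ⟨w, hw, rfl⟩
  exact h1 w hw

/-- F1. -/
theorem face_add {A : Finset (Fin n → ℤ)} {a b v₀ : Fin n → ℤ} (ha : v₀ ∈ face A a)
    (hb : v₀ ∈ face A b) : face A (a + b) = face A a ∩ face A b := by
  rw [mem_face] at ha hb
  have hN : NA A (a + b) = NA A a + NA A b := by
    refine NA_eq (fun v hv => ?_) ⟨v₀, ha.1, ?_⟩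
    · rw [add_dotProduct]
      exact add_le_add (NA_le hv) (NA_le hv)
    · rw [add_dotProduct, ha.2, hb.2]
  ext v
  rw [Finset.mem_inter, mem_face, mem_face, mem_face, hN, add_dotProduct]
  constructor
  · rintro ⟨hv, h⟩
    have h1 := NA_le (A := A) (a := a) hv
    have h2 := NA_le (A := A) (a := b) hv
    exact ⟨⟨hv, by omega⟩, hv, by omega⟩
  · rintro ⟨⟨hv, h1⟩, -, h2⟩
    exact ⟨hv, by omega⟩

theorem mem_cfaces {A φ : Finset (Fin n → ℤ)} :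
    φ ∈ cfaces A ↔ ∃ a : Fin n → ℤ, (∀ i, 0 < a i) ∧ φ = face A a := by
  classical
  unfold cfaces
  rw [Finset.mem_filter, Finset.mem_powerset]
  constructor
  · exact fun h => h.2
  · rintro ⟨a, ha, rfl⟩
    exact ⟨Finset.filter_subset _ _, a, ha, rfl⟩

theorem cfaces_subset {A φ : Finset (Fin n → ℤ)} (h : φ ∈ cfaces A) : φ ⊆ A := by
  obtain ⟨a, -, rfl⟩ := mem_cfaces.1 h
  exact Finset.filter_subset _ _

/-- F2: the carrier. -/
theorem exists_carrier {A τ : Finset (Fin n → ℤ)} (hne : τ.Nonempty)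
    (h : ∃ φ ∈ cfaces A, τ ⊆ φ) :
    ∃ φ ∈ cfaces A, τ ⊆ φ ∧ ∀ ψ ∈ cfaces A, τ ⊆ ψ → φ ⊆ ψ := by
  classical
  have hne' : ((cfaces A).filter (fun φ => τ ⊆ φ)).Nonempty := by
    obtain ⟨φ, h1, h2⟩ := h
    exact ⟨φ, Finset.mem_filter.2 ⟨h1, h2⟩⟩
  obtain ⟨φ, hφ, hmin⟩ := Finset.exists_min_image _ Finset.card hne'
  rw [Finset.mem_filter] at hφ
  refine ⟨φ, hφ.1, hφ.2, fun ψ hψ hτψ => ?_⟩
  obtain ⟨u, hu⟩ := hne
  obtain ⟨a, ha, rfl⟩ := mem_cfaces.1 hφ.1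
  obtain ⟨b, hb, rfl⟩ := mem_cfaces.1 hψ
  have h1 := face_add (hφ.2 hu) (hτψ hu)
  have h2 : face A (a + b) ∈ (cfaces A).filter (fun φ => τ ⊆ φ) := by
    rw [Finset.mem_filter]
    refine ⟨mem_cfaces.2 ⟨a + b, fun i => add_pos (ha i) (hb i), rfl⟩, ?_⟩
    rw [h1]
    exact Finset.subset_inter hφ.2 hτψ
  have h3 := hmin _ h2
  rw [h1] at h3
  have h4 : face A a ∩ face A b = face A a :=
    Finset.eq_of_subset_of_card_le Finset.inter_subset_left h3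
  rw [← h4]
  exact Finset.inter_subset_right

open Classical in
/-- The carrier of `τ`. -/
noncomputable def car (A τ : Finset (Fin n → ℤ)) : Finset (Fin n → ℤ) :=
  if h : ∃ φ ∈ cfaces A, τ ⊆ φ ∧ ∀ ψ ∈ cfaces A, τ ⊆ ψ → φ ⊆ ψ then h.choose else ∅

/-- The pairs of simplices of the triangulation and compact faces. -/
def CSimp (A : Finset (Fin n → ℤ)) (Φ : Fan n) (τ : Finset (Fin n → ℤ)) : Prop :=
  Φ.IsFace τ ∧ τ.Nonempty ∧ τ ⊆ A

theorem car_spec {A Z : Finset (Fin n → ℤ)} {Φ : Fan n} (hT : Tri A Z Φ)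
    {τ : Finset (Fin n → ℤ)} (hτ : CSimp A Φ τ) :
    car A τ ∈ cfaces A ∧ τ ⊆ car A τ ∧ ∀ ψ ∈ cfaces A, τ ⊆ ψ → car A τ ⊆ ψ := by
  obtain ⟨hA, hAp, h0, hAZ, hv, hN, hnice⟩ := hT
  obtain ⟨⟨F, hF, hτF⟩, hne, hτA⟩ := hτ
  obtain ⟨a, ha, hau⟩ := hnice F hF
  have h1 : face A a ∈ cfaces A := mem_cfaces.2 ⟨a, ha, rfl⟩
  have h2 : τ ⊆ face A a := by
    intro u hu
    rw [mem_face]
    refine ⟨hτA hu, hau u (Finset.mem_sdiff.2 ⟨hτF hu, ?_⟩)⟩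
    exact Finset.disjoint_left.1 hAZ (hτA hu)
  have hex := exists_carrier hne ⟨_, h1, h2⟩
  unfold car
  rw [dif_pos hex]
  exact ⟨hex.choose_spec.1, hex.choose_spec.2⟩

theorem car_eq {A Z : Finset (Fin n → ℤ)} {Φ : Fan n} (hT : Tri A Z Φ)
    {τ φ : Finset (Fin n → ℤ)} (hτ : CSimp A Φ τ) (hφ : φ ∈ cfaces A) (h1 : τ ⊆ φ)
    (h2 : φ ⊆ car A τ) : car A τ = φ :=
  Finset.Subset.antisymm ((car_spec hT hτ).2.2 φ hφ h1) h2

/-- F3. -/
theorem car_dual {A Z : Finset (Fin n → ℤ)} {Φ : Fan n} (hT : Tri A Z Φ)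
    {τ : Finset (Fin n → ℤ)} (hτ : CSimp A Φ τ) {a : Fin n → ℤ} (ha : ∀ i, 0 ≤ a i)
    (h : ∀ v ∈ τ, a ⬝ᵥ v = NA A a) : ∀ v ∈ car A τ, a ⬝ᵥ v = NA A a := by
  obtain ⟨h1, h2, h3⟩ := car_spec hT hτ
  obtain ⟨b, hb, hbe⟩ := mem_cfaces.1 h1
  obtain ⟨u, hu⟩ := hτ.2.1
  have hua : u ∈ face A a := mem_face.2 ⟨hτ.2.2 hu, h u hu⟩
  have hub : u ∈ face A b := hbe ▸ h2 hu
  have h4 := face_add hua hub
  have h5 := h3 (face A (a + b)) (mem_cfaces.2 ⟨a + b, fun i => by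
    have := ha i; have := hb i; simp only [Pi.add_apply]; omega, rfl⟩) (by
    rw [h4]
    intro v hv
    rw [Finset.mem_inter]
    exact ⟨mem_face.2 ⟨hτ.2.2 hv, h v hv⟩, hbe ▸ h2 hv⟩)
  intro v hv
  have h6 := h5 hv
  rw [h4, Finset.mem_inter, mem_face] at h6
  exact h6.1.2

/-- F5. -/
theorem card_le_dimF {τ φ : Finset (Fin n → ℤ)} (hτ : Indep τ) (hne : τ.Nonempty)
    (h : τ ⊆ φ) : τ.card ≤ dimF φ + 1 := by
  classical
  have h1 : AffineIndependent ℝ (fun u : τ => toR (u : Fin n → ℤ)) := hτ.affineIndependent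
  have : Nonempty τ := hne.to_subtype
  have h2 := h1.finrank_vectorSpan_add_one
  rw [Fintype.card_coe] at h2
  rw [← h2]
  unfold dimF
  have h3 : vectorSpan ℝ (Set.range (fun u : τ => toR (u : Fin n → ℤ))) ≤
      vectorSpan ℝ (toR '' (φ : Set (Fin n → ℤ))) := by
    apply vectorSpan_mono
    rintro _ ⟨u, rfl⟩
    exact ⟨u.1, h u.2, rfl⟩
  have := Submodule.finrank_mono h3
  omega

theorem dimF_mono {τ φ : Finset (Fin n → ℤ)} (h : τ ⊆ φ) : dimF τ ≤ dimF φ := by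
  unfold dimF
  apply Submodule.finrank_mono
  apply vectorSpan_mono
  exact Set.image_mono (by exact_mod_cast h)

theorem vectorSpan_eq {τ φ : Finset (Fin n → ℤ)} (h : τ ⊆ φ) (hd : dimF φ ≤ dimF τ) :
    vectorSpan ℝ (toR '' (τ : Set (Fin n → ℤ))) = vectorSpan ℝ (toR '' (φ : Set (Fin n → ℤ))) := by
  apply Submodule.eq_of_le_of_finrank_le
  · apply vectorSpan_mono
    exact Set.image_mono (by exact_mod_cast h)
  · exact hd

/-- A functional constant on `τ` vanishes on the vector span of `τ`. -/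
theorem dot_vectorSpan {τ : Finset (Fin n → ℤ)} {k : Fin n → ℤ} {m : ℤ}
    (h : ∀ u ∈ τ, k ⬝ᵥ u = m) : ∀ x ∈ vectorSpan ℝ (toR '' (τ : Set (Fin n → ℤ))),
    toR k ⬝ᵥ x = 0 := by
  intro x hx
  unfold vectorSpan at hx
  induction hx using Submodule.span_induction with
  | mem x hx =>
    obtain ⟨_, ⟨u, hu, rfl⟩, _, ⟨v, hv, rfl⟩, rfl⟩ := hx
    change toR k ⬝ᵥ (toR u - toR v) = 0
    rw [dotProduct_sub, toR_dot, toR_dot, h u hu, h v hv, sub_self]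
  | zero => simp
  | add x y _ _ hx hy => rw [dotProduct_add, hx, hy, add_zero]
  | smul a x _ hx => rw [dotProduct_smul, hx, smul_zero]

theorem const_of_dim {τ φ : Finset (Fin n → ℤ)} (hne : τ.Nonempty) (h : τ ⊆ φ)
    (hd : dimF φ ≤ dimF τ) {k : Fin n → ℤ} {m : ℤ} (hk : ∀ u ∈ τ, k ⬝ᵥ u = m) :
    ∀ u ∈ φ, k ⬝ᵥ u = m := by
  intro u hu
  obtain ⟨v, hv⟩ := hne
  have h1 : toR u - toR v ∈ vectorSpan ℝ (toR '' (τ : Set (Fin n → ℤ))) := by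
    rw [vectorSpan_eq h hd, ← vsub_eq_sub]
    exact vsub_mem_vectorSpan ℝ ⟨u, hu, rfl⟩ ⟨v, h hv, rfl⟩
  have h2 := dot_vectorSpan hk _ h1
  rw [dotProduct_sub, toR_dot, toR_dot, hk v hv] at h2
  have h3 : ((k ⬝ᵥ u : ℤ) : ℝ) = (m : ℝ) := by linarith
  exact_mod_cast h3

/-- F4. -/
theorem card_add_dimF_le {δ φ : Finset (Fin n → ℤ)} (hδ : Indep δ)
    (h : ∀ a ∈ δ, ∃ m : ℤ, ∀ v ∈ φ, a ⬝ᵥ v = m) : δ.card + dimF φ ≤ n := by
  classical
  let M : Matrix δ (Fin n) ℝ := fun a => toR (a : Fin n → ℤ)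
  have hMi : LinearIndependent ℝ M := hδ
  have hrank : M.rank = δ.card := by
    rw [LinearIndependent.rank_matrix (M := M) hMi]
    simp
  have hdim := LinearMap.finrank_range_add_finrank_ker M.mulVecLin
  have hr : Module.finrank ℝ (LinearMap.range M.mulVecLin) = δ.card := hrank
  rw [hr] at hdim
  have hn : Module.finrank ℝ (Fin n → ℝ) = n := by simp
  rw [hn] at hdim
  have hle : vectorSpan ℝ (toR '' (φ : Set (Fin n → ℤ))) ≤ LinearMap.ker M.mulVecLin := by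
    intro x hx
    rw [LinearMap.mem_ker, Matrix.mulVecLin_apply]
    funext a
    obtain ⟨m, hm⟩ := h a.1 a.2
    exact dot_vectorSpan hm x hx
  have := Submodule.finrank_mono hle
  unfold dimF
  omega

/-- F6. -/
theorem car_of_dim {A Z : Finset (Fin n → ℤ)} {Φ : Fan n} (hT : Tri A Z Φ)
    {τ φ : Finset (Fin n → ℤ)} (hτ : CSimp A Φ τ) (hφ : φ ∈ cfaces A) (h1 : τ ⊆ φ)
    (h2 : τ.card = dimF φ + 1) : car A τ = φ := by
  obtain ⟨h3, h4, h5⟩ := car_spec hT hτ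
  refine car_eq hT hτ hφ h1 ?_
  have hτi : Indep τ := Fan.IsFace.indep Φ hτ.1
  have h6 : τ.card ≤ dimF τ + 1 := card_le_dimF hτi hτ.2.1 (Finset.Subset.refl τ)
  obtain ⟨b, hb, hbe⟩ := mem_cfaces.1 h3
  have h7 : ∀ u ∈ τ, b ⬝ᵥ u = NA A b := by
    intro u hu
    have := h4 hu
    rw [hbe, mem_face] at this
    exact this.2
  have h8 := const_of_dim hτ.2.1 h1 (by omega) h7
  intro v hv
  rw [hbe, mem_face]
  exact ⟨cfaces_subset hφ hv, h8 v hv⟩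

theorem csimp_iff {A : Finset (Fin n → ℤ)} {Φ : Fan n} {τ : Finset (Fin n → ℤ)} :
    (τ ∈ Φ.faces ∧ τ.Nonempty ∧ τ ⊆ A) ↔ CSimp A Φ τ := by
  rw [Fan.mem_faces]; rfl

end Mono
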