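import Pool.Agent.Helper94.Mono.SidePrimal

/-! Packet G3b of the monodromy project: `sidePrimal`, the two cases. -/

namespace Mono

open Finset

variable {n : ℕ}

theorem dot_rel (Z : Finset (Fin n → ℤ)) (u₀ a u : Fin n → ℤ) :
    a ⬝ᵥ rel Z u₀ u = a ⬝ᵥ u - (if u ∈ Z then 0 else 1) * (a ⬝ᵥ u₀) := by
  unfold rel
  split_ifs with h
  · simp
  · rw [dotProduct_sub]; simp

open Classical in
theorem sidePrimal_case1 (hC : StarCoverT) {Φ : Fan n} {Z : Finset (Fin n → ℤ)}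
    (hN : Φ.Newton Z) {τ ε : Finset (Fin n → ℤ)} (hτ : Φ.IsFace τ) (hε : Indep ε)
    (hεp : ∀ a ∈ ε, ∀ i, 0 ≤ a i)
    (hcard : ε.card + τ.card = n) (hID : InDual (Φ.vert \ Z) Z τ ε) {u₀ κ : Fin n → ℤ}
    (hu₀ : u₀ ∈ τ \ Z) (hoκ : ∀ u ∈ τ, κ ⬝ᵥ rel Z u₀ u = 0)
    (hκ : toR κ ∉ Submodule.span ℝ (toR '' (ε : Set (Fin n → ℤ))))
    (hcase : ∃ a ∈ ε, NA (Φ.vert \ Z) a ≠ 0) :
    (∑ u ∈ Φ.vert.filter (fun u => u ∉ τ ∧ Φ.IsFace (insert u τ) ∧
      InDual (Φ.vert \ Z) Z (insert u τ) ε), (κ ⬝ᵥ rel Z u₀ u).sign) =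
    (if Adm (Φ.vert \ Z) u₀ κ ε 1 then 1 else 0) -
      (if Adm (Φ.vert \ Z) u₀ κ ε (-1) then 1 else 0) := by
  have hoε : ∀ u ∈ Φ.vert, InDual (Φ.vert \ Z) Z (insert u τ) ε →
      ∀ a ∈ ε, a ⬝ᵥ rel Z u₀ u = 0 := by
    intro u _ hu a ha
    rw [dot_rel]
    have hu₀' : a ⬝ᵥ u₀ = NA (Φ.vert \ Z) a := (hID a ha).1 u₀ hu₀
    by_cases huZ : u ∈ Z
    · rw [(hu a ha).2 u (Finset.mem_inter.2 ⟨Finset.mem_insert_self u τ, huZ⟩)]
      simp [huZ]
    · rw [(hu a ha).1 u (Finset.mem_sdiff.2 ⟨Finset.mem_insert_self u τ, huZ⟩), hu₀']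
      simp [huZ]
  have hoτ : ∀ a ∈ ε, ∀ u ∈ τ, a ⬝ᵥ rel Z u₀ u = 0 := by
    intro a ha u hu
    rw [dot_rel]
    have hu₀' : a ⬝ᵥ u₀ = NA (Φ.vert \ Z) a := (hID a ha).1 u₀ hu₀
    by_cases huZ : u ∈ Z
    · rw [(hID a ha).2 u (Finset.mem_inter.2 ⟨hu, huZ⟩)]
      simp [huZ]
    · rw [(hID a ha).1 u (Finset.mem_sdiff.2 ⟨hu, huZ⟩), hu₀']
      simp [huZ]
  have huniq : ∀ s : ℤ, ∀ u ∈ Φ.vert.filter (fun u => u ∉ τ ∧ Φ.IsFace (insert u τ) ∧
      InDual (Φ.vert \ Z) Z (insert u τ) ε), ∀ u' ∈ Φ.vert.filter (fun u => u ∉ τ ∧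
      Φ.IsFace (insert u τ) ∧ InDual (Φ.vert \ Z) Z (insert u τ) ε),
      0 < s * (κ ⬝ᵥ rel Z u₀ u) → 0 < s * (κ ⬝ᵥ rel Z u₀ u') → u = u' := by
    intro s u hu u' hu' hs hs'
    rw [Finset.mem_filter] at hu hu'
    exact side_unique (Φ := Φ) (hτ.indep) hε hcard hu₀ hoτ hoκ hκ hu.2.1 hu'.2.1 hu.2.2.1
      hu'.2.2.1 (hoε u hu.1 hu.2.2.2) (hoε u' hu'.1 hu'.2.2.2) s hs hs'
  have hAdm : ∀ s : ℤ, (¬ Adm (Φ.vert \ Z) u₀ κ ε (-s)) ↔
      ∃ u ∈ Φ.vert.filter (fun u => u ∉ τ ∧ Φ.IsFace (insert u τ) ∧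
        InDual (Φ.vert \ Z) Z (insert u τ) ε), 0 < s * (κ ⬝ᵥ rel Z u₀ u) := by
    intro s
    constructor
    · intro hna
      unfold Adm at hna
      rw [not_and_or] at hna
      rcases hna with hna | hna
      · push Not at hna
        obtain ⟨v, hv, hva, hlt⟩ := hna
        obtain ⟨hv1, hv2⟩ := Finset.mem_sdiff.1 hv
        obtain ⟨u, h1, h2, h3, h4, h5⟩ := exists_side hC hτ hεp hID hu₀ hoκ hcase v
          (Φ.vert_nonneg v hv1) 1 (fun a ha => by rw [hva a ha]; ring)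
          (fun F hF => by
            have := (hN.2.2 F hF).1 v hv
            simpa using this) s (by
            rw [dotProduct_sub] at hlt
            have : -s * (κ ⬝ᵥ v - κ ⬝ᵥ u₀) = - (s * (κ ⬝ᵥ v - 1 * (κ ⬝ᵥ u₀))) := by ring
            rw [this] at hlt
            omega)
        exact ⟨u, Finset.mem_filter.2 ⟨h1, h2, h3, h4⟩, h5⟩
      · push Not at hna
        obtain ⟨i, hi, hlt⟩ := hna
        obtain ⟨u, h1, h2, h3, h4, h5⟩ := exists_side hC hτ hεp hID hu₀ hoκ hcase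
          (Pi.single i 1) (fun j => by
            by_cases h : j = i
            · subst h; simp
            · simp [Pi.single_eq_of_ne h]) 0
          (fun a ha => by rw [dotProduct_single, hi a ha]; ring)
          (fun F hF => by
            have h1 := (hN.2.2 F hF).2 i
            have h2 : toR (Pi.single i 1 : Fin n → ℤ) = Pi.single i (1 : ℝ) := by
              funext j
              by_cases h : j = i
              · subst h; simp
              · simp [Pi.single_eq_of_ne h]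
            rw [h2]
            simpa using h1) s (by
            rw [dotProduct_single]
            have : -s * κ i = - (s * (κ i * 1 - 0 * (κ ⬝ᵥ u₀))) := by ring
            rw [this] at hlt
            omega)
        exact ⟨u, Finset.mem_filter.2 ⟨h1, h2, h3, h4⟩, h5⟩
    · rintro ⟨u, hu, hpos⟩ hadm
      rw [Finset.mem_filter] at hu
      obtain ⟨hu1, hu2, hu3, hu4⟩ := hu
      rw [dot_rel] at hpos
      by_cases huZ : u ∈ Z
      · obtain ⟨k, hk⟩ := hN.2.1 u huZ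
        have h1 := hadm.2 k (fun a ha => by
          have h2 := (hu4 a ha).2 u (Finset.mem_inter.2 ⟨Finset.mem_insert_self u τ, huZ⟩)
          rw [hk, dotProduct_single] at h2
          simpa using h2)
        simp only [huZ, if_true, zero_mul, sub_zero] at hpos
        rw [hk, dotProduct_single, mul_one] at hpos
        have : -s * κ k = - (s * κ k) := by ring
        omega
      · have h1 := hadm.1 u (Finset.mem_sdiff.2 ⟨hu1, huZ⟩) (fun a ha =>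
          (hu4 a ha).1 u (Finset.mem_sdiff.2 ⟨Finset.mem_insert_self u τ, huZ⟩))
        simp only [huZ, if_false, one_mul] at hpos
        rw [dotProduct_sub] at h1
        have : -s * (κ ⬝ᵥ u - κ ⬝ᵥ u₀) = - (s * (κ ⬝ᵥ u - κ ⬝ᵥ u₀)) := by ring
        omega
  have h1 := hAdm 1
  have h2 := hAdm (-1)
  rw [neg_neg] at h2
  rw [sum_sign_eq _ (fun u => κ ⬝ᵥ rel Z u₀ u)
    (fun u hu u' hu' h h' => huniq 1 u hu u' hu' (by simpa using h) (by simpa using h'))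
    (fun u hu u' hu' h h' => huniq (-1) u hu u' hu' (by simpa using h) (by simpa using h'))
    (¬ Adm (Φ.vert \ Z) u₀ κ ε (-1)) (¬ Adm (Φ.vert \ Z) u₀ κ ε 1)
    (by rw [h1]; simp) (by rw [h2]; simp)]
  by_cases hA : Adm (Φ.vert \ Z) u₀ κ ε 1 <;> by_cases hB : Adm (Φ.vert \ Z) u₀ κ ε (-1) <;>
    simp [hA, hB]

open Classical in
theorem sidePrimal_case2 (hS : SpanT) {Φ : Fan n} {Z : Finset (Fin n → ℤ)}
    (hN : Φ.Newton Z) {τ ε : Finset (Fin n → ℤ)} (hτ : Φ.IsFace τ) (hε : Indep ε)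
    (hεp : ∀ a ∈ ε, ∀ i, 0 ≤ a i)
    (hcard : ε.card + τ.card = n) (hID : InDual (Φ.vert \ Z) Z τ ε) {u₀ κ : Fin n → ℤ}
    (hu₀ : u₀ ∈ τ \ Z) (hoκ : ∀ u ∈ τ, κ ⬝ᵥ rel Z u₀ u = 0)
    (hκ : toR κ ∉ Submodule.span ℝ (toR '' (ε : Set (Fin n → ℤ))))
    (hcase : ∀ a ∈ ε, NA (Φ.vert \ Z) a = 0) :
    (if Adm (Φ.vert \ Z) u₀ κ ε 1 then 1 else 0) -
      (if Adm (Φ.vert \ Z) u₀ κ ε (-1) then 1 else 0) =
    (∑ u ∈ Φ.vert.filter (fun u => u ∉ τ ∧ Φ.IsFace (insert u τ) ∧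
      InDual (Φ.vert \ Z) Z (insert u τ) ε), (κ ⬝ᵥ rel Z u₀ u).sign) +
    if τ.card = (cs τ).card ∧ (∀ a ∈ ε, ∀ i ∈ cs τ, a i = 0) then (κ ⬝ᵥ u₀).sign else 0 := by
  have hu₀τ : u₀ ∈ τ := (Finset.mem_sdiff.1 hu₀).1
  have hu₀Z : u₀ ∉ Z := (Finset.mem_sdiff.1 hu₀).2
  have hτv := hτ.subset_vert Φ
  have hτp : ∀ u ∈ τ, ∀ i, 0 ≤ u i := fun u hu => Φ.vert_nonneg u (hτv hu)
  have h0 : ∀ a ∈ ε, ∀ u ∈ τ, a ⬝ᵥ u = 0 := by
    intro a ha u hu
    by_cases huZ : u ∈ Z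
    · exact (hID a ha).2 u (Finset.mem_inter.2 ⟨hu, huZ⟩)
    · rw [(hID a ha).1 u (Finset.mem_sdiff.2 ⟨hu, huZ⟩), hcase a ha]
  have hmul : ∀ a ∈ ε, ∀ u : Fin n → ℤ, (∀ i, 0 ≤ u i) → a ⬝ᵥ u = 0 → ∀ i, a i * u i = 0 := by
    intro a ha u hu h i
    have := (Finset.sum_eq_zero_iff_of_nonneg
      (fun i _ => mul_nonneg (hεp a ha i) (hu i))).1 h i (Finset.mem_univ i)
    exact this
  have hcs : ∀ a ∈ ε, ∀ i ∈ cs τ, a i = 0 := by
    intro a ha i hi
    unfold cs at hi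
    obtain ⟨u, hu, hui⟩ := (Finset.mem_filter.1 hi).2
    rcases mul_eq_zero.1 (hmul a ha u (hτp u hu) (h0 a ha u hu) i) with h | h
    · exact h
    · exact absurd h hui
  have hτcs : ∀ u ∈ τ, ∀ i, i ∉ cs τ → u i = 0 := by
    intro u hu i hi
    by_contra h
    exact hi (Finset.mem_filter.2 ⟨Finset.mem_univ i, u, hu, h⟩)
  have hτi := hτ.indep
  have hc1 : τ.card ≤ (cs τ).card := hτi.card_le (cs τ) hτcs
  have hc2 : ε.card ≤ ((cs τ)ᶜ).card := hε.card_le _ (fun a ha i hi => hcs a ha i (by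
    simpa using hi))
  have hcc : ((cs τ)ᶜ).card = n - (cs τ).card := by
    rw [Finset.card_compl]; simp
  have hcn : (cs τ).card ≤ n := by
    have := Finset.card_le_univ (cs τ)
    simpa using this
  have hceq : τ.card = (cs τ).card := by omega
  have hI : ∀ i, i ∉ cs τ → ∃ a ∈ ε, a i ≠ 0 := by
    intro i hi
    by_contra hcon
    push Not at hcon
    have h1 := hε.card_le (((cs τ)ᶜ).erase i) (fun a ha j hj => by
      by_cases hji : j = i
      · rw [hji]; exact hcon a ha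
      · refine hcs a ha j ?_
        by_contra hjc
        exact hj (Finset.mem_erase.2 ⟨hji, Finset.mem_compl.2 hjc⟩))
    rw [Finset.card_erase_of_mem (Finset.mem_compl.2 hi), hcc] at h1
    have h2 : 0 < n - (cs τ).card := by
      rw [← hcc]; exact Finset.card_pos.2 ⟨i, Finset.mem_compl.2 hi⟩
    omega
  have hoff : ∀ v : Fin n → ℤ, (∀ i, 0 ≤ v i) → (∀ a ∈ ε, a ⬝ᵥ v = 0) →
      ∀ i, i ∉ cs τ → v i = 0 := by
    intro v hv hva i hi
    obtain ⟨a, ha, hai⟩ := hI i hi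
    rcases mul_eq_zero.1 (hmul a ha v hv (hva a ha) i) with h | h
    · exact absurd h hai
    · exact h
  have hempty : Φ.vert.filter (fun u => u ∉ τ ∧ Φ.IsFace (insert u τ) ∧
      InDual (Φ.vert \ Z) Z (insert u τ) ε) = ∅ := by
    rw [Finset.filter_eq_empty_iff]
    rintro u hu ⟨h1, h2, h3⟩
    have h4 : ∀ a ∈ ε, a ⬝ᵥ u = 0 := by
      intro a ha
      by_cases huZ : u ∈ Z
      · exact (h3 a ha).2 u (Finset.mem_inter.2 ⟨Finset.mem_insert_self u τ, huZ⟩)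
      · rw [(h3 a ha).1 u (Finset.mem_sdiff.2 ⟨Finset.mem_insert_self u τ, huZ⟩), hcase a ha]
    have h5 := hoff u (Φ.vert_nonneg u hu) h4
    have h6 := (h2.indep).card_le (cs τ) (fun v hv i hi => by
      rcases Finset.mem_insert.1 hv with h | h
      · rw [h]; exact h5 i hi
      · exact hτcs v h i hi)
    rw [Finset.card_insert_of_notMem h1] at h6
    omega
  have hif : (if τ.card = (cs τ).card ∧ (∀ a ∈ ε, ∀ i ∈ cs τ, a i = 0) then (κ ⬝ᵥ u₀).sign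
      else 0) = (κ ⬝ᵥ u₀).sign := if_pos ⟨hceq, hcs⟩
  rw [hempty, Finset.sum_empty, zero_add, hif]
  -- κ·u₀ ≠ 0
  have hoτ : ∀ a ∈ ε, ∀ u ∈ τ, a ⬝ᵥ rel Z u₀ u = 0 := by
    intro a ha u hu
    rw [dot_rel, h0 a ha u hu, h0 a ha u₀ hu₀τ]
    ring
  have hne : κ ⬝ᵥ u₀ ≠ 0 := by
    intro hk0
    obtain ⟨c, hc, hc0⟩ := orth_mem_span hτi hε hcard hu₀ hoτ hoκ hκ (toR u₀)
      (fun a ha => by rw [toR_dot, h0 a ha u₀ hu₀τ]; simp)
      (by rw [toR_dot, hk0]; simp)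
    have h1 : ∑ u ∈ τ, c u • toR u = ∑ u ∈ τ, (if u = u₀ then (1 : ℝ) else 0) • toR u := by
      rw [← hc]
      simp [hu₀τ]
    have h2 := hτi.coeff_eq h1
    have h3 : ∑ u ∈ τ \ Z, c u = 1 := by
      rw [Finset.sum_congr rfl (fun u hu => h2 u (Finset.mem_sdiff.1 hu).1)]
      rw [Finset.sum_ite_eq' (τ \ Z) u₀ (fun _ => (1 : ℝ)), if_pos hu₀]
    rw [h3] at hc0
    exact one_ne_zero hc0
  obtain ⟨F, hF, hτF⟩ := id hτ
  have hFi := Φ.mx_indep F hF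
  have hFc := Φ.mx_card F hF
  have hmem : τ ∈ Φ.mxT (cs τ) := by
    unfold Fan.mxT
    rw [Finset.mem_filter, Fan.mem_faces]
    exact ⟨hτ, hceq, hτcs⟩
  have key : ∀ y : Fin n → ℝ, (∀ i, i ∉ cs τ → y i = 0) →
      toR κ ⬝ᵥ y = psi Z F y * ((κ ⬝ᵥ u₀ : ℤ) : ℝ) := by
    intro y hy
    have hcr := hS n Φ (cs τ) τ hmem y hy
    have hcr2 : IsCrd F y (crd τ y) := by
      refine ⟨fun u hu => hcr.1 u (fun h => hu (hτF h)), ?_⟩
      rw [← Finset.sum_subset hτF]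
      · exact hcr.2
      · intro u _ hu
        rw [hcr.1 u hu, zero_smul]
    have e1 := crd_unique hFi hcr2
    unfold psi
    rw [e1]
    have h1 : ∑ u ∈ F \ Z, crd τ y u = ∑ u ∈ τ, crd τ y u * (if u ∈ Z then (0 : ℝ) else 1) := by
      rw [Finset.sdiff_eq_filter, Finset.sum_filter]
      rw [← Finset.sum_subset hτF]
      · refine Finset.sum_congr rfl fun u _ => ?_
        by_cases hu : u ∈ Z <;> simp [hu]
      · intro u _ hu
        rw [hcr.1 u hu]; simp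
    rw [h1]
    conv_lhs => rw [hcr.2]
    rw [dotProduct_sum, Finset.sum_mul]
    refine Finset.sum_congr rfl fun u hu => ?_
    rw [dotProduct_smul, smul_eq_mul, toR_dot]
    have h2 := hoκ u hu
    rw [dot_rel] at h2
    have h3 : κ ⬝ᵥ u = (if u ∈ Z then 0 else 1) * (κ ⬝ᵥ u₀) := by linarith
    rw [h3]
    push_cast
    ring
  -- the two conditions
  have hpos : ∀ s : ℤ, 0 < s * (κ ⬝ᵥ u₀) → Adm (Φ.vert \ Z) u₀ κ ε s ∧
      ¬ Adm (Φ.vert \ Z) u₀ κ ε (-s) := by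
    intro s hs
    have hsR : (0 : ℝ) < (s : ℝ) * ((κ ⬝ᵥ u₀ : ℤ) : ℝ) := by exact_mod_cast hs
    have hsingle : ∀ i ∈ cs τ, (κ i : ℝ) =
        psi Z F (Pi.single i 1) * ((κ ⬝ᵥ u₀ : ℤ) : ℝ) := by
      intro i hi
      rw [← key (Pi.single i 1) (fun j hj => by
        have : j ≠ i := fun h => hj (h ▸ hi)
        simp [Pi.single_eq_of_ne this])]
      rw [dotProduct_single]; simp
    refine ⟨⟨?_, ?_⟩, ?_⟩
    · intro v hv hva
      obtain ⟨hv1, hv2⟩ := Finset.mem_sdiff.1 hv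
      have hvoff := hoff v (Φ.vert_nonneg v hv1) (fun a ha => by rw [hva a ha, hcase a ha])
      have h1 := key (toR v) (fun i hi => by rw [toR_apply, hvoff i hi]; simp)
      rw [toR_dot] at h1
      have h2 := (hN.2.2 F hF).1 v hv
      have h3 : (0 : ℝ) ≤ ((s * (κ ⬝ᵥ (v - u₀)) : ℤ) : ℝ) := by
        rw [dotProduct_sub]
        push_cast
        rw [h1]
        have h4 : (s : ℝ) * (psi Z F (toR v) * ((κ ⬝ᵥ u₀ : ℤ) : ℝ) - ((κ ⬝ᵥ u₀ : ℤ) : ℝ)) =
          (psi Z F (toR v) - 1) * ((s : ℝ) * ((κ ⬝ᵥ u₀ : ℤ) : ℝ)) := by ring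
        rw [h4]
        exact mul_nonneg (by linarith) hsR.le
      exact_mod_cast h3
    · intro i hi
      have hics : i ∈ cs τ := by
        by_contra h
        obtain ⟨a, ha, hai⟩ := hI i h
        exact hai (hi a ha)
      have h2 := (hN.2.2 F hF).2 i
      have h3 : (0 : ℝ) ≤ ((s * κ i : ℤ) : ℝ) := by
        push_cast
        rw [hsingle i hics]
        have h4 : (s : ℝ) * (psi Z F (Pi.single i 1) * ((κ ⬝ᵥ u₀ : ℤ) : ℝ)) =
          psi Z F (Pi.single i 1) * ((s : ℝ) * ((κ ⬝ᵥ u₀ : ℤ) : ℝ)) := by ring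
        rw [h4]
        exact mul_nonneg h2 hsR.le
      exact_mod_cast h3
    · rintro ⟨-, hadm⟩
      have h1 : psi Z F (toR u₀) = 1 := by
        rw [psi_toR Z hFi (hτF hu₀τ), if_neg hu₀Z]
      have h2 : toR u₀ = ∑ i, (u₀ i : ℝ) • (Pi.single i (1 : ℝ) : Fin n → ℝ) := by
        funext j
        simp [Finset.sum_apply, Pi.single_apply]
      have h3 : ∀ (s : Finset (Fin n)), psi Z F (∑ i ∈ s, (u₀ i : ℝ) •
          (Pi.single i (1 : ℝ) : Fin n → ℝ)) =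
          ∑ i ∈ s, (u₀ i : ℝ) * psi Z F (Pi.single i 1) := by
        intro s
        induction s using Finset.induction_on with
        | empty =>
          simp only [Finset.sum_empty]
          have := psi_smul Z hFi hFc 0 (0 : Fin n → ℝ)
          simpa using this
        | insert i s hi ih =>
          rw [Finset.sum_insert hi, Finset.sum_insert hi, psi_add Z hFi hFc,
            psi_smul Z hFi hFc, ih]
      have h4 : ∑ i, (u₀ i : ℝ) * psi Z F (Pi.single i 1) = 1 := by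
        rw [← h3, ← h2, h1]
      have h5 : ∃ i ∈ (univ : Finset (Fin n)), 0 < (u₀ i : ℝ) * psi Z F (Pi.single i 1) := by
        by_contra hcon
        push Not at hcon
        have := Finset.sum_nonpos hcon
        rw [h4] at this
        linarith
      obtain ⟨i, -, hi⟩ := h5
      have hu0i : u₀ i ≠ 0 := by
        intro h
        rw [h] at hi; simp at hi
      have hics : i ∈ cs τ := Finset.mem_filter.2 ⟨Finset.mem_univ i, u₀, hu₀τ, hu0i⟩
      have h6 := hadm i (fun a ha => hcs a ha i hics)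
      have hps := (hN.2.2 F hF).2 i
      have hps' : 0 < psi Z F (Pi.single i 1) := by
        rcases hps.eq_or_lt with h | h
        · rw [← h] at hi; simp at hi
        · exact h
      have h7 : (0 : ℝ) ≤ ((-s * κ i : ℤ) : ℝ) := by exact_mod_cast h6
      push_cast at h7
      rw [hsingle i hics] at h7
      have h8 : -(s : ℝ) * (psi Z F (Pi.single i 1) * ((κ ⬝ᵥ u₀ : ℤ) : ℝ)) =
        - (psi Z F (Pi.single i 1) * ((s : ℝ) * ((κ ⬝ᵥ u₀ : ℤ) : ℝ))) := by ring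
      rw [h8] at h7
      have h9 := mul_pos hps' hsR
      linarith
  rcases lt_or_gt_of_ne hne with h | h
  · have h1 := hpos (-1) (by omega)
    rw [neg_neg] at h1
    rw [if_neg h1.2, if_pos h1.1, Int.sign_eq_neg_one_of_neg h]
    ring
  · have h1 := hpos 1 (by omega)
    rw [if_pos h1.1, if_neg h1.2, Int.sign_eq_one_of_pos h]
    ring

/-- Packet G3b. -/
theorem sidePrimal (hS : SpanT) (hC : StarCoverT) : SidePrimal := by
  intro n Φ T Z hN _ τ ε hτ hε hcard hID u₀ hu₀ κ hκe hκ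
  have hoκ : ∀ u ∈ τ, κ ⬝ᵥ rel Z u₀ u = 0 := by
    intro u hu
    rw [dot_rel]
    by_cases huZ : u ∈ Z
    · rw [hκe u (Or.inr ⟨hu, huZ⟩)]
      simp [huZ]
    · have h1 := hκe (u - u₀) (Or.inl ⟨u, Finset.mem_sdiff.2 ⟨hu, huZ⟩, u₀, hu₀, rfl⟩)
      rw [dotProduct_sub] at h1
      simp only [huZ, if_false, one_mul]
      exact h1
  have hεp : ∀ a ∈ ε, ∀ i, 0 ≤ a i := fun a ha =>
    T.vert_nonneg a (hε.subset_vert T ha)
  by_cases hcase : ∃ a ∈ ε, NA (Φ.vert \ Z) a ≠ 0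
  · rw [sidePrimal_case1 hC hN hτ hε.indep hεp hcard hID hu₀ hoκ hκ hcase]
    have hif : (if τ.card = (cs τ).card ∧ (∀ a ∈ ε, ∀ i ∈ cs τ, a i = 0) then (κ ⬝ᵥ u₀).sign
        else 0) = 0 := if_neg ?_
    · rw [hif, add_zero]
    rintro ⟨-, h2⟩
    obtain ⟨a, ha, hNa⟩ := hcase
    apply hNa
    rw [← (hID a ha).1 u₀ hu₀]
    refine Finset.sum_eq_zero fun i _ => ?_
    by_cases hi : i ∈ cs τ
    · rw [h2 a ha i hi, zero_mul]
    · have : u₀ i = 0 := by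
        by_contra h
        exact hi (Finset.mem_filter.2 ⟨Finset.mem_univ i, u₀, (Finset.mem_sdiff.1 hu₀).1, h⟩)
      rw [this, mul_zero]
  · push Not at hcase
    exact sidePrimal_case2 hS hN hτ hε.indep hεp hcard hID hu₀ hoκ hκ hcase

end Mono
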