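import Pool.Agent.Helper94.Mono.SideLin

/-! Packet G3b of the monodromy project: `sidePrimal`. -/

namespace Mono

open Finset

variable {n : ℕ}

/-- Sum of signs. -/
theorem sum_sign_eq {α : Type*} (I : Finset α) (f : α → ℤ)
    (hp : ∀ u ∈ I, ∀ u' ∈ I, 0 < f u → 0 < f u' → u = u')
    (hm : ∀ u ∈ I, ∀ u' ∈ I, f u < 0 → f u' < 0 → u = u')
    (P Q : Prop) [Decidable P] [Decidable Q] (hP : P ↔ ∃ u ∈ I, 0 < f u)
    (hQ : Q ↔ ∃ u ∈ I, f u < 0) :
    ∑ u ∈ I, (f u).sign = (if P then 1 else 0) - (if Q then 1 else 0) := by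
  classical
  have h1 : ∀ x : ℤ, x.sign = (if 0 < x then (1 : ℤ) else 0) - (if x < 0 then (1 : ℤ) else 0) := by
    intro x
    rcases lt_trichotomy x 0 with h | h | h
    · rw [Int.sign_eq_neg_one_of_neg h, if_neg (by omega), if_pos h]; ring
    · rw [h]; simp
    · rw [Int.sign_eq_one_of_pos h, if_pos h, if_neg (by omega)]; ring
  simp only [h1]
  rw [Finset.sum_sub_distrib]
  have key : ∀ (g : α → Prop) [DecidablePred g] (R : Prop) [Decidable R],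
      (∀ u ∈ I, ∀ u' ∈ I, g u → g u' → u = u') → (R ↔ ∃ u ∈ I, g u) →
      ∑ u ∈ I, (if g u then (1 : ℤ) else 0) = if R then 1 else 0 := by
    intro g _ R _ hu hR
    by_cases h : R
    · rw [if_pos h]
      obtain ⟨u, huI, hgu⟩ := hR.1 h
      rw [Finset.sum_eq_single u]
      · rw [if_pos hgu]
      · intro v hv hne
        rw [if_neg]
        intro hgv
        exact hne (hu v hv u huI hgv hgu)
      · intro h'
        exact absurd huI h'
    · rw [if_neg h]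
      refine Finset.sum_eq_zero fun u hu' => ?_
      rw [if_neg]
      intro hgu
      exact h (hR.2 ⟨u, hu', hgu⟩)
  rw [key _ P hp hP, key _ Q hm hQ]

theorem isCrd_insert {F τ : Finset (Fin n → ℤ)} {u : Fin n → ℤ} (hu : u ∉ τ) (huF : u ∈ F)
    (hτF : τ ⊆ F) (β : ℝ) (e : (Fin n → ℤ) → ℝ) :
    IsCrd F (β • toR u + ∑ t ∈ τ, e t • toR t)
      (fun v => if v = u then β else if v ∈ τ then e v else 0) := by
  classical
  refine ⟨fun v hv => ?_, ?_⟩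
  · have h1 : v ≠ u := fun h => hv (h ▸ huF)
    have h2 : v ∉ τ := fun h => hv (hτF h)
    simp [h1, h2]
  · have hsub : insert u τ ⊆ F := by
      intro v hv
      rcases Finset.mem_insert.1 hv with h | h
      · exact h ▸ huF
      · exact hτF h
    rw [← Finset.sum_subset hsub]
    · rw [Finset.sum_insert hu]
      dsimp only
      rw [if_pos rfl]
      congr 1
      refine Finset.sum_congr rfl fun t ht => ?_
      have : t ≠ u := fun h => hu (h ▸ ht)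
      rw [if_neg this, if_pos ht]
    · intro v _ hv
      have h1 : v ≠ u := fun h => hv (Finset.mem_insert.2 (Or.inl h))
      have h2 : v ∉ τ := fun h => hv (Finset.mem_insert.2 (Or.inr h))
      simp [h1, h2]

/-- Two neighbours of `τ` on the same side coincide. -/
theorem side_unique {Φ : Fan n} {τ ε Z : Finset (Fin n → ℤ)} {u₀ κ : Fin n → ℤ}
    (hτ : Indep τ) (hε : Indep ε) (hcard : ε.card + τ.card = n) (hu₀ : u₀ ∈ τ \ Z)
    (hoε : ∀ a ∈ ε, ∀ u ∈ τ, a ⬝ᵥ rel Z u₀ u = 0) (hoκ : ∀ u ∈ τ, κ ⬝ᵥ rel Z u₀ u = 0)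
    (hκ : toR κ ∉ Submodule.span ℝ (toR '' (ε : Set (Fin n → ℤ))))
    {u u' : Fin n → ℤ} (hu : u ∉ τ) (hu' : u' ∉ τ)
    (hf : Φ.IsFace (insert u τ)) (hf' : Φ.IsFace (insert u' τ))
    (ho : ∀ a ∈ ε, a ⬝ᵥ rel Z u₀ u = 0) (ho' : ∀ a ∈ ε, a ⬝ᵥ rel Z u₀ u' = 0)
    (s : ℤ) (hs : 0 < s * (κ ⬝ᵥ rel Z u₀ u)) (hs' : 0 < s * (κ ⬝ᵥ rel Z u₀ u')) : u = u' := by
  classical
  by_contra hne
  have hu₀τ : u₀ ∈ τ := (Finset.mem_sdiff.1 hu₀).1
  set k : ℤ := κ ⬝ᵥ rel Z u₀ u with hk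
  set k' : ℤ := κ ⬝ᵥ rel Z u₀ u' with hk'
  set α : ℝ := ((s * k : ℤ) : ℝ) with hα
  set α' : ℝ := ((s * k' : ℤ) : ℝ) with hα'
  have hαp : 0 < α := by rw [hα]; exact_mod_cast hs
  have hα'p : 0 < α' := by rw [hα']; exact_mod_cast hs'
  obtain ⟨d, hd, -⟩ := orth_mem_span hτ hε hcard hu₀ hoε hoκ hκ
    (α' • toR (rel Z u₀ u) - α • toR (rel Z u₀ u'))
    (fun a ha => by
      rw [dotProduct_sub, dotProduct_smul, dotProduct_smul, toR_dot, toR_dot, ho a ha, ho' a ha]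
      simp)
    (by
      rw [dotProduct_sub, dotProduct_smul, dotProduct_smul, toR_dot, toR_dot, ← hk, ← hk']
      rw [hα, hα']
      push_cast
      simp only [smul_eq_mul]
      ring)
  set hz : (Fin n → ℤ) → ℝ := fun v => if v ∈ Z then (0 : ℝ) else 1 with hhz
  have hd2 : α' • toR u - α • toR u' =
      ∑ t ∈ τ, (d t + if t = u₀ then α' * hz u - α * hz u' else 0) • toR t := by
    have h1 : ∑ t ∈ τ, (d t + if t = u₀ then α' * hz u - α * hz u' else 0) • toR t =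
        ∑ t ∈ τ, d t • toR t + (α' * hz u - α * hz u') • toR u₀ := by
      simp only [add_smul]
      rw [Finset.sum_add_distrib]
      congr 1
      rw [Finset.sum_eq_single u₀]
      · rw [if_pos rfl]
      · intro b _ hb
        rw [if_neg hb, zero_smul]
      · intro h; exact absurd hu₀τ h
    rw [h1, ← hd, toR_rel, toR_rel]
    rw [hhz]
    simp only [smul_sub, sub_smul, smul_smul]
    module
  set d' : (Fin n → ℤ) → ℝ := fun t => d t + if t = u₀ then α' * hz u - α * hz u' else 0 with hd'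
  set K : ℝ := ∑ t ∈ τ, |d' t| with hK
  have hKt : ∀ t ∈ τ, |d' t| ≤ K := fun t ht =>
    Finset.single_le_sum (f := fun t => |d' t|) (fun t _ => abs_nonneg _) ht
  have hK0 : 0 ≤ K := Finset.sum_nonneg fun t _ => abs_nonneg _
  obtain ⟨F, hF, hFs⟩ := hf
  obtain ⟨F', hF', hFs'⟩ := hf'
  set y : Fin n → ℝ := α' • toR u + ∑ t ∈ τ, K • toR t with hy
  have hy2 : y = α • toR u' + ∑ t ∈ τ, (d' t + K) • toR t := by
    have : α' • toR u = α • toR u' + ∑ t ∈ τ, d' t • toR t := by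
      rw [← hd2]; abel
    rw [hy, this]
    simp only [add_smul]
    rw [Finset.sum_add_distrib]
    abel
  have c1 := isCrd_insert hu (hFs (Finset.mem_insert_self u τ))
    (fun t ht => hFs (Finset.mem_insert_of_mem ht)) α' (fun _ => K)
  have c2 := isCrd_insert hu' (hFs' (Finset.mem_insert_self u' τ))
    (fun t ht => hFs' (Finset.mem_insert_of_mem ht)) α (fun t => d' t + K)
  rw [← hy] at c1
  rw [← hy2] at c2
  have e1 := crd_unique (Φ.mx_indep F hF) c1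
  have e2 := crd_unique (Φ.mx_indep F' hF') c2
  have n1 : ∀ v, 0 ≤ crd F y v := by
    intro v
    rw [e1]
    dsimp only
    split_ifs
    · exact hα'p.le
    · exact hK0
    · exact le_rfl
  have n2 : ∀ v, 0 ≤ crd F' y v := by
    intro v
    rw [e2]
    dsimp only
    split_ifs with h1 h2
    · exact hαp.le
    · have := hKt v h2
      have h3 := neg_abs_le (d' v)
      linarith
    · exact le_rfl
  have huF' : u ∈ F' := by
    by_contra hcon
    have := Φ.inter F hF F' hF' y n1 n2 u hcon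
    rw [e1] at this
    simp only [if_true] at this
    exact absurd this hα'p.ne'
  have c3 := isCrd_insert hu huF' (fun t ht => hFs' (Finset.mem_insert_of_mem ht)) α' (fun _ => K)
  rw [← hy] at c3
  have e3 := crd_unique (Φ.mx_indep F' hF') c3
  have h5 := congrFun (e3.symm.trans e2) u
  simp only [if_true] at h5
  rw [if_neg hne, if_neg hu] at h5
  exact hα'p.ne' h5

/-- Existence of a neighbour of `τ` in an admissible direction. -/
theorem exists_side (hC : StarCoverT) {Φ : Fan n} {Z : Finset (Fin n → ℤ)}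
    {τ ε : Finset (Fin n → ℤ)} (hτ : Φ.IsFace τ) (hεp : ∀ a ∈ ε, ∀ i, 0 ≤ a i)
    (hID : InDual (Φ.vert \ Z) Z τ ε) {u₀ κ : Fin n → ℤ} (hu₀ : u₀ ∈ τ \ Z)
    (hoκ : ∀ u ∈ τ, κ ⬝ᵥ rel Z u₀ u = 0) (hcase : ∃ a ∈ ε, NA (Φ.vert \ Z) a ≠ 0)
    (q : Fin n → ℤ) (hq : ∀ i, 0 ≤ q i) (h : ℤ)
    (hqa : ∀ a ∈ ε, a ⬝ᵥ q = h * NA (Φ.vert \ Z) a)
    (hpsi : ∀ F ∈ Φ.mx, (h : ℝ) ≤ psi Z F (toR q)) (s : ℤ)
    (hs : 0 < s * (κ ⬝ᵥ q - h * (κ ⬝ᵥ u₀))) :
    ∃ u ∈ Φ.vert, u ∉ τ ∧ Φ.IsFace (insert u τ) ∧ InDual (Φ.vert \ Z) Z (insert u τ) ε ∧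
      0 < s * (κ ⬝ᵥ rel Z u₀ u) := by
  classical
  generalize hA : Φ.vert \ Z = A at *
  have hu₀A : u₀ ∈ A := hA ▸ Finset.mem_sdiff.2 ⟨hτ.subset_vert Φ (Finset.mem_sdiff.1 hu₀).1,
    (Finset.mem_sdiff.1 hu₀).2⟩
  have hAp : ∀ v ∈ A, ∀ i, 0 ≤ v i := fun v hv => by
    rw [← hA] at hv
    exact Φ.vert_nonneg v (Finset.mem_sdiff.1 hv).1
  have hNp : ∀ a ∈ ε, 0 ≤ NA A a := fun a ha => NA_nonneg ⟨u₀, hu₀A⟩ (hεp a ha) hAp
  obtain ⟨F, hFm, hτF, hFp⟩ := hC n Φ univ τ hτ (by simp) (toR q) (by simp)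
    (fun i _ _ => by
      have := hq i
      rw [toR_apply]
      exact_mod_cast this)
  have hF : F ∈ Φ.mx := by
    unfold Fan.mxT at hFm
    rw [Finset.mem_filter] at hFm
    obtain ⟨h1, h2, -⟩ := hFm
    rw [Fan.mem_faces] at h1
    obtain ⟨F', hF', hs'⟩ := h1
    have h3 := Φ.mx_card F' hF'
    have h4 : F.card = n := by simpa using h2
    have : F = F' := Finset.eq_of_subset_of_card_le hs' (by omega)
    rw [this]; exact hF'
  have hFi := Φ.mx_indep F hF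
  have hFc := Φ.mx_card F hF
  set c := crd F (toR q) with hc
  set hz : (Fin n → ℤ) → ℝ := fun v => if v ∈ Z then (0 : ℝ) else 1 with hhz
  have hpsiF : psi Z F (toR q) = ∑ u ∈ F, c u * hz u := by
    unfold psi
    rw [Finset.sdiff_eq_filter, Finset.sum_filter]
    refine Finset.sum_congr rfl fun u _ => ?_
    rw [hhz]
    by_cases hu : u ∈ Z <;> simp [hu, hc]
  -- termwise inequality
  have hge : ∀ a ∈ ε, ∀ u ∈ F, (NA A a : ℝ) * hz u ≤ ((a ⬝ᵥ u : ℤ) : ℝ) := by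
    intro a ha u hu
    by_cases huZ : u ∈ Z
    · have h0 : (0 : ℤ) ≤ a ⬝ᵥ u :=
        Finset.sum_nonneg fun i _ => mul_nonneg (hεp a ha i) (Φ.vert_nonneg u (Φ.mx_sub F hF hu) i)
      rw [hhz]
      simp only [huZ, if_true, mul_zero]
      exact_mod_cast h0
    · have h0 : NA A a ≤ a ⬝ᵥ u := NA_le (hA ▸ Finset.mem_sdiff.2 ⟨Φ.mx_sub F hF hu, huZ⟩)
      rw [hhz]
      simp only [huZ, if_false, mul_one]
      exact_mod_cast h0
  have heq : ∀ a ∈ ε, ∀ u ∈ τ, ((a ⬝ᵥ u : ℤ) : ℝ) = (NA A a : ℝ) * hz u := by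
    intro a ha u hu
    by_cases huZ : u ∈ Z
    · rw [(hID a ha).2 u (Finset.mem_inter.2 ⟨hu, huZ⟩), hhz]
      simp [huZ]
    · rw [(hID a ha).1 u (Finset.mem_sdiff.2 ⟨hu, huZ⟩), hhz]
      simp [huZ]
  have hsum : ∀ a ∈ ε, ∑ u ∈ F, c u * (((a ⬝ᵥ u : ℤ) : ℝ) - (NA A a : ℝ) * hz u) =
      (NA A a : ℝ) * ((h : ℝ) - psi Z F (toR q)) := by
    intro a ha
    have h1 : toR a ⬝ᵥ toR q = ∑ u ∈ F, c u * (toR a ⬝ᵥ toR u) := dot_eq_sum_crd hFi hFc _ _
    simp only [toR_dot] at h1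
    rw [hqa a ha] at h1
    simp only [mul_sub]
    rw [Finset.sum_sub_distrib, ← h1, hpsiF]
    rw [Finset.mul_sum]
    push_cast
    congr 1
    · ring
    · refine Finset.sum_congr rfl fun u _ => ?_
      ring
  have hterm : ∀ a ∈ ε, ∀ u ∈ F, 0 ≤ c u * (((a ⬝ᵥ u : ℤ) : ℝ) - (NA A a : ℝ) * hz u) := by
    intro a ha u hu
    by_cases hut : u ∈ τ
    · rw [heq a ha u hut]; simp
    · exact mul_nonneg (hFp u hut) (by linarith [hge a ha u hu])
  have hle : ∀ a ∈ ε, (NA A a : ℝ) * ((h : ℝ) - psi Z F (toR q)) ≤ 0 := by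
    intro a ha
    have h1 : (0 : ℝ) ≤ NA A a := by exact_mod_cast hNp a ha
    have h2 := hpsi F hF
    exact mul_nonpos_of_nonneg_of_nonpos h1 (by linarith)
  have hzero : ∀ a ∈ ε, ∀ u ∈ F, c u * (((a ⬝ᵥ u : ℤ) : ℝ) - (NA A a : ℝ) * hz u) = 0 := by
    intro a ha
    have h1 : ∑ u ∈ F, c u * (((a ⬝ᵥ u : ℤ) : ℝ) - (NA A a : ℝ) * hz u) = 0 :=
      le_antisymm (by rw [hsum a ha]; exact hle a ha) (Finset.sum_nonneg (hterm a ha))
    exact (Finset.sum_eq_zero_iff_of_nonneg (hterm a ha)).1 h1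
  have hpsieq : psi Z F (toR q) = h := by
    obtain ⟨a, ha, hNa⟩ := hcase
    have h1 : (NA A a : ℝ) * ((h : ℝ) - psi Z F (toR q)) = 0 := by
      rw [← hsum a ha]
      exact Finset.sum_eq_zero (hzero a ha)
    rcases mul_eq_zero.1 h1 with h2 | h2
    · exact absurd (by exact_mod_cast h2) hNa
    · linarith
  -- κ
  have hkrel : ∀ u, ((κ ⬝ᵥ rel Z u₀ u : ℤ) : ℝ) =
      ((κ ⬝ᵥ u : ℤ) : ℝ) - hz u * ((κ ⬝ᵥ u₀ : ℤ) : ℝ) := by
    intro u
    rw [← toR_dot, ← toR_dot, ← toR_dot, toR_rel, dotProduct_sub, dotProduct_smul, smul_eq_mul,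
      hhz]
  have hk : ∑ u ∈ F, c u * ((κ ⬝ᵥ rel Z u₀ u : ℤ) : ℝ) =
      ((κ ⬝ᵥ q - h * (κ ⬝ᵥ u₀) : ℤ) : ℝ) := by
    have h1 : toR κ ⬝ᵥ toR q = ∑ u ∈ F, c u * (toR κ ⬝ᵥ toR u) := dot_eq_sum_crd hFi hFc _ _
    simp only [toR_dot] at h1
    push_cast
    rw [h1, ← hpsieq, hpsiF, Finset.sum_mul, ← Finset.sum_sub_distrib]
    refine Finset.sum_congr rfl fun u _ => ?_
    rw [hkrel]
    ring
  have hex : ∃ u ∈ F, 0 < (s : ℝ) * (c u * ((κ ⬝ᵥ rel Z u₀ u : ℤ) : ℝ)) := by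
    by_contra hcon
    push Not at hcon
    have h1 : ∑ u ∈ F, (s : ℝ) * (c u * ((κ ⬝ᵥ rel Z u₀ u : ℤ) : ℝ)) ≤ 0 :=
      Finset.sum_nonpos hcon
    rw [← Finset.mul_sum, hk] at h1
    have h2 : (0 : ℝ) < (s : ℝ) * ((κ ⬝ᵥ q - h * (κ ⬝ᵥ u₀) : ℤ) : ℝ) := by exact_mod_cast hs
    linarith
  obtain ⟨u, huF, hpos⟩ := hex
  have hut : u ∉ τ := by
    intro hut
    rw [hoκ u hut] at hpos
    simp at hpos
  have hcu : 0 ≤ c u := hFp u hut
  have hcu' : 0 < c u := by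
    rcases hcu.eq_or_lt with h0 | h0
    · rw [← h0] at hpos; simp at hpos
    · exact h0
  have hsk : 0 < s * (κ ⬝ᵥ rel Z u₀ u) := by
    have h1 : 0 < c u * ((s : ℝ) * ((κ ⬝ᵥ rel Z u₀ u : ℤ) : ℝ)) := by
      calc 0 < (s : ℝ) * (c u * ((κ ⬝ᵥ rel Z u₀ u : ℤ) : ℝ)) := hpos
        _ = _ := by ring
    have h2 := (pos_iff_pos_of_mul_pos h1).1 hcu'
    exact_mod_cast h2
  have hau : ∀ a ∈ ε, ((a ⬝ᵥ u : ℤ) : ℝ) = (NA A a : ℝ) * hz u := by
    intro a ha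
    rcases mul_eq_zero.1 (hzero a ha u huF) with h1 | h1
    · exact absurd h1 hcu'.ne'
    · linarith
  have hinsF : insert u τ ⊆ F := by
    intro v hv
    rcases Finset.mem_insert.1 hv with h1 | h1
    · exact h1 ▸ huF
    · exact hτF h1
  refine ⟨u, Φ.mx_sub F hF huF, hut, ⟨F, hF, hinsF⟩, ?_, hsk⟩
  intro a ha
  constructor
  · intro v hv
    obtain ⟨hv1, hv2⟩ := Finset.mem_sdiff.1 hv
    rcases Finset.mem_insert.1 hv1 with h1 | h1
    · subst h1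
      have := hau a ha
      rw [hhz] at this
      simp only [hv2, if_false, mul_one] at this
      exact_mod_cast this
    · exact (hID a ha).1 v (Finset.mem_sdiff.2 ⟨h1, hv2⟩)
  · intro v hv
    obtain ⟨hv1, hv2⟩ := Finset.mem_inter.1 hv
    rcases Finset.mem_insert.1 hv1 with h1 | h1
    · subst h1
      have := hau a ha
      rw [hhz] at this
      simp only [hv2, if_true, mul_zero] at this
      exact_mod_cast this
    · exact (hID a ha).2 v (Finset.mem_inter.2 ⟨h1, hv2⟩)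

end Mono
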